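import Mathlib

/-!
# Almost periods of convolutions by sampling (the `L²` Croot–Sisask argument)
-/

set_option autoImplicit false

namespace Pool.Agent.H55.Roth

variable {G : Type*} [AddCommGroup G] [Fintype G] [DecidableEq G]

theorem sum_pi_succ {k : ℕ} (A : Finset G) (f : (Fin (k + 1) → G) → ℝ) :
    ∑ x ∈ Fintype.piFinset (fun _ : Fin (k + 1) => A), f x =
      ∑ a ∈ A, ∑ x ∈ Fintype.piFinset (fun _ : Fin k => A), f (Fin.cons a x) := by
  rw [← Finset.sum_product']
  refine Finset.sum_bij' (fun x _ => (x 0, Fin.tail x)) (fun ax _ => Fin.cons ax.1 ax.2)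
    ?_ ?_ ?_ ?_ ?_
  · intro x hx
    rw [Fintype.mem_piFinset] at hx
    rw [Finset.mem_product, Fintype.mem_piFinset]
    exact ⟨hx 0, fun i => hx i.succ⟩
  · rintro ⟨a, x⟩ hx
    rw [Finset.mem_product, Fintype.mem_piFinset] at hx
    rw [Fintype.mem_piFinset]
    intro i
    refine Fin.cases ?_ (fun j => ?_) i
    · simpa using hx.1
    · simpa using hx.2 j
  · intro x _
    exact Fin.cons_self_tail x
  · rintro ⟨a, x⟩ _
    simp
  · intro x _
    simp only [Fin.cons_self_tail]

theorem second_moment (A : Finset G) (Z : G → ℝ) (hZ : ∑ a ∈ A, Z a = 0) (k : ℕ) : ∀ c : ℝ,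
    (A.card : ℝ) * ∑ x ∈ Fintype.piFinset (fun _ : Fin k => A), (c + ∑ i, Z (x i)) ^ 2 =
      (A.card : ℝ) ^ k * (A.card * c ^ 2 + k * ∑ a ∈ A, Z a ^ 2) := by
  induction k with
  | zero =>
    intro c
    simp
  | succ k ih =>
    intro c
    rw [sum_pi_succ, Finset.mul_sum]
    have h1 : ∀ a ∈ A, (A.card : ℝ) * ∑ x ∈ Fintype.piFinset (fun _ : Fin k => A),
        (c + ∑ i, Z ((Fin.cons a x : Fin (k + 1) → G) i)) ^ 2 =
        (A.card : ℝ) ^ k * (A.card * (c + Z a) ^ 2 + k * ∑ a ∈ A, Z a ^ 2) := by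
      intro a _
      rw [← ih (c + Z a)]
      congr 1
      refine Finset.sum_congr rfl fun x _ => ?_
      rw [Fin.sum_univ_succ]
      simp only [Fin.cons_zero, Fin.cons_succ]
      ring
    rw [Finset.sum_congr rfl h1, ← Finset.mul_sum, Finset.sum_add_distrib, ← Finset.mul_sum,
      Finset.sum_const, nsmul_eq_mul]
    have h2 : ∑ a ∈ A, (c + Z a) ^ 2 = A.card * c ^ 2 + ∑ a ∈ A, Z a ^ 2 := by
      have h3 : ∀ a ∈ A, (c + Z a) ^ 2 = c ^ 2 + 2 * c * Z a + Z a ^ 2 := fun a _ => by ring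
      rw [Finset.sum_congr rfl h3, Finset.sum_add_distrib, Finset.sum_add_distrib,
        ← Finset.mul_sum, hZ, Finset.sum_const, nsmul_eq_mul]
      ring
    rw [h2]
    push_cast
    ring

/-- The convolution with the indicator function of `A`. -/
noncomputable def conv (A : Finset G) (R : G → ℝ) (v : G) : ℝ := ∑ x ∈ A, R (v + x)

/-- The error of a sample. -/
noncomputable def err (A : Finset G) (R : G → ℝ) (k : ℕ) (x : Fin k → G) : ℝ :=
  ∑ v, (conv A R v - A.card / k * ∑ i, R (v + x i)) ^ 2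

theorem err_nonneg (A : Finset G) (R : G → ℝ) (k : ℕ) (x : Fin k → G) : 0 ≤ err A R k x :=
  Finset.sum_nonneg fun _ _ => sq_nonneg _

theorem sum_err_le {A : Finset G} (hA : A.Nonempty) (R : G → ℝ) {k : ℕ} (hk : 1 ≤ k) :
    ∑ x ∈ Fintype.piFinset (fun _ : Fin k => A), err A R k x ≤
      (A.card : ℝ) ^ k * ((A.card : ℝ) ^ 2 * (∑ u, R u ^ 2) / k) := by
  have hc : (0 : ℝ) < A.card := by exact_mod_cast Finset.card_pos.2 hA
  have hk0 : (0 : ℝ) < k := by exact_mod_cast hk
  unfold err
  rw [Finset.sum_comm]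
  have h1 : ∀ v : G, ∑ x ∈ Fintype.piFinset (fun _ : Fin k => A),
      (conv A R v - A.card / k * ∑ i, R (v + x i)) ^ 2 ≤
      (A.card : ℝ) ^ k * (A.card / k * ∑ a ∈ A, R (v + a) ^ 2) := by
    intro v
    set μ : ℝ := conv A R v / A.card with hμ
    have hZ : ∑ a ∈ A, (R (v + a) - μ) = 0 := by
      rw [Finset.sum_sub_distrib, Finset.sum_const, nsmul_eq_mul, hμ]
      have : ∑ a ∈ A, R (v + a) = conv A R v := rfl
      rw [this]
      field_simp
      ring
    have h2 := second_moment A (fun a => R (v + a) - μ) hZ k 0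
    have h3 : ∑ x ∈ Fintype.piFinset (fun _ : Fin k => A),
        (conv A R v - A.card / k * ∑ i, R (v + x i)) ^ 2 = (A.card / k) ^ 2 *
        ∑ x ∈ Fintype.piFinset (fun _ : Fin k => A), (0 + ∑ i, (R (v + x i) - μ)) ^ 2 := by
      rw [Finset.mul_sum]
      refine Finset.sum_congr rfl fun x _ => ?_
      have h4 : conv A R v - A.card / k * ∑ i, R (v + x i) =
          -(A.card / k * (0 + ∑ i, (R (v + x i) - μ))) := by
        rw [Finset.sum_sub_distrib, Finset.sum_const, Finset.card_univ, Fintype.card_fin,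
          nsmul_eq_mul, hμ]
        field_simp
        ring
      rw [h4]; ring
    have h5 : ∑ x ∈ Fintype.piFinset (fun _ : Fin k => A),
        (0 + ∑ i, (R (v + x i) - μ)) ^ 2 = (A.card : ℝ) ^ k *
        (k * ∑ a ∈ A, (R (v + a) - μ) ^ 2) / A.card := by
      rw [eq_div_iff hc.ne', mul_comm, h2]
      ring
    have h6 : ∑ a ∈ A, (R (v + a) - μ) ^ 2 ≤ ∑ a ∈ A, R (v + a) ^ 2 := by
      have h7 : ∀ a ∈ A, (R (v + a) - μ) ^ 2 = R (v + a) ^ 2 - μ * (2 * (R (v + a) - μ) + μ) :=
        fun a _ => by ring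
      rw [Finset.sum_congr rfl h7, Finset.sum_sub_distrib, ← Finset.mul_sum,
        Finset.sum_add_distrib, ← Finset.mul_sum, hZ, Finset.sum_const, nsmul_eq_mul]
      have : 0 ≤ μ * (2 * 0 + A.card * μ) := by
        have : μ * (2 * 0 + A.card * μ) = A.card * μ ^ 2 := by ring
        rw [this]; positivity
      linarith
    rw [h3, h5]
    have h8 : ((A.card : ℝ) / k) ^ 2 * ((A.card : ℝ) ^ k *
        (k * ∑ a ∈ A, (R (v + a) - μ) ^ 2) / A.card) = (A.card : ℝ) ^ k * (A.card / k *
        ∑ a ∈ A, (R (v + a) - μ) ^ 2) := by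
      field_simp
    rw [h8]
    exact mul_le_mul_of_nonneg_left (mul_le_mul_of_nonneg_left h6 (by positivity)) (by positivity)
  refine (Finset.sum_le_sum fun v _ => h1 v).trans (le_of_eq ?_)
  rw [← Finset.mul_sum, ← Finset.mul_sum, Finset.sum_comm]
  have h9 : ∀ a ∈ A, ∑ v, R (v + a) ^ 2 = ∑ u, R u ^ 2 := fun a _ =>
    Equiv.sum_comp (Equiv.addRight a) (fun u => R u ^ 2)
  rw [Finset.sum_congr rfl h9, Finset.sum_const, nsmul_eq_mul]
  ring

/-- A large set of translates under which the convolution is almost invariant. -/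
theorem exists_periods {A : Finset G} (hA : A.Nonempty) (R : G → ℝ) {k : ℕ} (hk : 1 ≤ k) :
    ∃ B : Finset G, ((A.card : ℝ) / Fintype.card G) ^ k * Fintype.card G / 2 ≤ B.card ∧
      ∀ t ∈ B, ∀ t' ∈ B, ∑ v, (conv A R (v + t) - conv A R (v + t')) ^ 2 ≤
        8 * ((A.card : ℝ) ^ 2 * (∑ u, R u ^ 2) / k) := by
  classical
  have hc : (0 : ℝ) < A.card := by exact_mod_cast Finset.card_pos.2 hA
  have hk0 : (0 : ℝ) < k := by exact_mod_cast hk
  have hN : (0 : ℝ) < Fintype.card G := by
    have : 0 < Fintype.card G := Fintype.card_pos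
    exact_mod_cast this
  set c0 : ℝ := (A.card : ℝ) ^ 2 * (∑ u, R u ^ 2) / k with hc0
  have hc0n : 0 ≤ c0 := by
    rw [hc0]
    have : 0 ≤ ∑ u, R u ^ 2 := Finset.sum_nonneg fun _ _ => sq_nonneg _
    positivity
  set Ω := Fintype.piFinset (fun _ : Fin k => A) with hΩ
  have hΩc : (Ω.card : ℝ) = (A.card : ℝ) ^ k := by
    rw [hΩ, Fintype.card_piFinset_const]
    push_cast
    rfl
  set Good := Ω.filter (fun x => err A R k x ≤ 2 * c0) with hGood
  have hsum := sum_err_le hA R hk
  rw [← hΩ, ← hc0] at hsum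
  have hbad : ((Ω.filter (fun x => ¬ err A R k x ≤ 2 * c0)).card : ℝ) ≤ (A.card : ℝ) ^ k / 2 := by
    set Bad := Ω.filter (fun x => ¬ err A R k x ≤ 2 * c0) with hBad
    by_cases hz : c0 = 0
    · have hemp : Bad = ∅ := by
        rw [Finset.eq_empty_iff_forall_notMem]
        intro x hx
        rw [hBad, Finset.mem_filter, not_le, hz, mul_zero] at hx
        rw [hz, mul_zero] at hsum
        have h1 : err A R k x ≤ ∑ x ∈ Ω, err A R k x :=
          Finset.single_le_sum (f := fun x => err A R k x) (fun y _ => err_nonneg A R k y) hx.1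
        linarith [hx.2]
      rw [hemp]
      simp only [Finset.card_empty, Nat.cast_zero]
      positivity
    · have hpos : 0 < c0 := lt_of_le_of_ne hc0n (Ne.symm hz)
      have h1 : (Bad.card : ℝ) * (2 * c0) ≤ ∑ x ∈ Bad, err A R k x := by
        rw [← nsmul_eq_mul]
        refine Finset.card_nsmul_le_sum _ _ _ fun x hx => ?_
        rw [hBad, Finset.mem_filter, not_le] at hx
        exact hx.2.le
      have h2 : ∑ x ∈ Bad, err A R k x ≤ ∑ x ∈ Ω, err A R k x :=
        Finset.sum_le_sum_of_subset_of_nonneg (Finset.filter_subset _ _)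
          (fun y _ _ => err_nonneg A R k y)
      have h3 : (Bad.card : ℝ) * (2 * c0) ≤ (A.card : ℝ) ^ k * c0 := (h1.trans h2).trans hsum
      have h4 : (Bad.card : ℝ) * 2 ≤ (A.card : ℝ) ^ k := by
        refine le_of_mul_le_mul_right ?_ hpos
        linarith
      linarith
  have hgood : (A.card : ℝ) ^ k / 2 ≤ Good.card := by
    have h1 := Finset.card_filter_add_card_filter_not (s := Ω) (fun x => err A R k x ≤ 2 * c0)
    have h2 : (Good.card : ℝ) + ((Ω.filter (fun x => ¬ err A R k x ≤ 2 * c0)).card : ℝ) =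
        (A.card : ℝ) ^ k := by
      rw [← hΩc, ← h1]
      push_cast
      rfl
    linarith
  -- pigeonhole
  set Bs : (Fin k → G) → Finset G := fun y => Finset.univ.filter (fun t => (fun i => y i - t) ∈ Good)
    with hBs
  have hcount : ∑ y, ((Bs y).card : ℝ) = Fintype.card G * Good.card := by
    have h1 : ∀ y : Fin k → G, ((Bs y).card : ℝ) =
        ∑ t : G, if (fun i => y i - t) ∈ Good then (1 : ℝ) else 0 := by
      intro y
      rw [hBs, Finset.card_filter]
      push_cast
      rfl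
    simp_rw [h1]
    rw [Finset.sum_comm]
    have h2 : ∀ t : G, ∑ y : Fin k → G, (if (fun i => y i - t) ∈ Good then (1 : ℝ) else 0) =
        Good.card := by
      intro t
      have h3 := Equiv.sum_comp (Equiv.subRight (fun _ : Fin k => t))
        (fun x : Fin k → G => if x ∈ Good then (1 : ℝ) else 0)
      have h4 : ∀ y : Fin k → G, (Equiv.subRight (fun _ : Fin k => t)) y = fun i => y i - t := by
        intro y; rfl
      simp_rw [h4] at h3
      rw [h3]
      simp
    rw [Finset.sum_congr rfl fun t _ => h2 t, Finset.sum_const, nsmul_eq_mul, Finset.card_univ]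
  obtain ⟨y, hy⟩ : ∃ y : Fin k → G, ((A.card : ℝ) / Fintype.card G) ^ k * Fintype.card G / 2 ≤
      (Bs y).card := by
    by_contra hcon
    push Not at hcon
    have h1 : ∑ y, ((Bs y).card : ℝ) < ∑ _y : Fin k → G,
        ((A.card : ℝ) / Fintype.card G) ^ k * Fintype.card G / 2 :=
      Finset.sum_lt_sum_of_nonempty Finset.univ_nonempty fun y _ => hcon y
    rw [hcount, Finset.sum_const, nsmul_eq_mul, Finset.card_univ, Fintype.card_pi_const] at h1
    push_cast at h1
    have h2 : (Fintype.card G : ℝ) ^ k * (((A.card : ℝ) / Fintype.card G) ^ k *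
        Fintype.card G / 2) = (Fintype.card G : ℝ) * ((A.card : ℝ) ^ k / 2) := by
      rw [div_pow]
      field_simp
    rw [h2] at h1
    have h3 := mul_le_mul_of_nonneg_left hgood hN.le
    linarith
  refine ⟨Bs y, hy, ?_⟩
  set H : G → ℝ := fun v => A.card / k * ∑ i, R (v + y i) with hH
  have key : ∀ t ∈ Bs y, ∑ v, (conv A R (v + t) - H v) ^ 2 ≤ 2 * c0 := by
    intro t ht
    rw [hBs, Finset.mem_filter, hGood, Finset.mem_filter] at ht
    refine le_trans (le_of_eq ?_) ht.2.2
    unfold err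
    rw [← Equiv.sum_comp (Equiv.addRight t)
      (fun v => (conv A R v - A.card / k * ∑ i, R (v + (y i - t))) ^ 2)]
    refine Finset.sum_congr rfl fun v _ => ?_
    simp only [Equiv.coe_addRight, hH]
    have : ∀ i, v + t + (y i - t) = v + y i := fun i => by abel
    simp_rw [this]
  intro t ht t' ht'
  have h1 := key t ht
  have h2 := key t' ht'
  calc ∑ v, (conv A R (v + t) - conv A R (v + t')) ^ 2
      ≤ ∑ v, (2 * (conv A R (v + t) - H v) ^ 2 + 2 * (conv A R (v + t') - H v) ^ 2) := by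
        refine Finset.sum_le_sum fun v _ => ?_
        nlinarith [sq_nonneg ((conv A R (v + t) - H v) + (conv A R (v + t') - H v))]
    _ = 2 * ∑ v, (conv A R (v + t) - H v) ^ 2 + 2 * ∑ v, (conv A R (v + t') - H v) ^ 2 := by
        rw [Finset.sum_add_distrib, Finset.mul_sum, Finset.mul_sum]
    _ ≤ 8 * c0 := by linarith

end Pool.Agent.H55.Roth
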