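import Pool.Agent.H55.Roth.Recip
import Pool.Agent.H55.Roth.Sample

/-!
# The main inequality for one set
-/

set_option autoImplicit false

open Polynomial

namespace Pool.Agent.H55.Roth

variable {p : ℕ} [Fact p.Prime]

/-- Number of `x ∈ A` with `f x = u`. -/
noncomputable def rep (A : Finset (ZMod p)) (f : ZMod p → ZMod p) (u : ZMod p) : ℝ :=
  ∑ x ∈ A, if f x = u then (1 : ℝ) else 0

/-- The number of triples with `f x₁ - (f x₂ - x₂) - x₃ = s`. -/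
noncomputable def NN (A : Finset (ZMod p)) (f : ZMod p → ZMod p) (s : ZMod p) : ℝ :=
  ∑ y ∈ A, conv A (rep A f) (f y - y + s)

theorem rep_nonneg (A : Finset (ZMod p)) (f : ZMod p → ZMod p) (u : ZMod p) : 0 ≤ rep A f u :=
  Finset.sum_nonneg fun x _ => by split_ifs <;> norm_num

theorem rep_eq_card (A : Finset (ZMod p)) (f : ZMod p → ZMod p) (u : ZMod p) :
    rep A f u = (A.filter fun x => f x = u).card := by
  unfold rep
  rw [Finset.card_filter]
  push_cast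
  rfl

theorem sum_rep (A : Finset (ZMod p)) (f : ZMod p → ZMod p) : ∑ u, rep A f u = A.card := by
  unfold rep
  rw [Finset.sum_comm]
  simp

theorem sum_comp_le {A : Finset (ZMod p)} {k : ZMod p → ZMod p} {D : ℕ}
    (hfib : ∀ v, (A.filter fun y => k y = v).card ≤ D) {g : ZMod p → ℝ} (hg : ∀ v, 0 ≤ g v) :
    ∑ y ∈ A, g (k y) ≤ D * ∑ v, g v := by
  rw [← Finset.sum_fiberwise A k (fun y => g (k y)), Finset.mul_sum]
  refine Finset.sum_le_sum fun v _ => ?_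
  have h1 : ∑ y ∈ A.filter (fun y => k y = v), g (k y) =
      (A.filter fun y => k y = v).card * g v := by
    rw [← nsmul_eq_mul, ← Finset.sum_const]
    refine Finset.sum_congr rfl fun y hy => ?_
    rw [(Finset.mem_filter.1 hy).2]
  rw [h1]
  refine mul_le_mul_of_nonneg_right ?_ (hg v)
  exact_mod_cast hfib v

theorem sum_rep_sq {A : Finset (ZMod p)} {f : ZMod p → ZMod p} {D : ℕ}
    (hfib : ∀ v, (A.filter fun y => f y = v).card ≤ D) :
    ∑ u, rep A f u ^ 2 ≤ D * A.card := by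
  rw [← sum_rep A f, Finset.mul_sum]
  refine Finset.sum_le_sum fun u _ => ?_
  rw [sq]
  refine mul_le_mul_of_nonneg_right ?_ (rep_nonneg A f u)
  rw [rep_eq_card]
  exact_mod_cast hfib u

theorem NN_diff {A : Finset (ZMod p)} {f : ZMod p → ZMod p} {D : ℕ}
    (hfib : ∀ v, (A.filter fun y => f y - y = v).card ≤ D) {B : Finset (ZMod p)} {E : ℝ}
    (hper : ∀ t ∈ B, ∀ t' ∈ B, ∑ v, (conv A (rep A f) (v + t) - conv A (rep A f) (v + t')) ^ 2 ≤ E)
    (w t t' : ZMod p) (ht : t ∈ B) (ht' : t' ∈ B) :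
    |NN A f (w + t) - NN A f (w + t')| ≤ Real.sqrt (A.card * (D * E)) := by
  apply Real.abs_le_sqrt
  set g : ZMod p → ℝ := fun v => conv A (rep A f) (v + w + t) - conv A (rep A f) (v + w + t') with hg
  have h1 : NN A f (w + t) - NN A f (w + t') = ∑ y ∈ A, g (f y - y) := by
    unfold NN
    rw [← Finset.sum_sub_distrib]
    refine Finset.sum_congr rfl fun y _ => ?_
    simp only [hg]
    rw [← add_assoc, ← add_assoc]
  rw [h1]
  refine (sq_sum_le_card_mul_sum_sq).trans ?_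
  refine mul_le_mul_of_nonneg_left ?_ (Nat.cast_nonneg _)
  have h2 := sum_comp_le hfib (g := fun v => g v ^ 2) (fun v => sq_nonneg _)
  refine h2.trans (mul_le_mul_of_nonneg_left ?_ (Nat.cast_nonneg _))
  have h3 := Equiv.sum_comp (Equiv.addRight w) (fun v => (conv A (rep A f) (v + t) -
    conv A (rep A f) (v + t')) ^ 2)
  simp only [Equiv.coe_addRight] at h3
  simp only [hg]
  rw [h3]
  exact hper t ht t' ht'

theorem ker_support {B : Finset (ZMod p)} {t : ZMod p} (h : ker B t ≠ 0) :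
    ∃ b ∈ B, ∃ b' ∈ B, b - b' = t := by
  by_contra hcon
  push Not at hcon
  apply h
  unfold ker
  rw [Finset.sum_eq_zero, zero_div]
  intro b hb
  refine Finset.sum_eq_zero fun b' hb' => ?_
  rw [if_neg (hcon b hb b' hb')]

/-- The smoothed count is an average of shifted counts. -/
theorem smooth_eq (A : Finset (ZMod p)) (f : ZMod p → ZMod p) (B : Finset (ZMod p)) :
    ∑ x1 ∈ A, ∑ x2 ∈ A, ∑ x3 ∈ A, ∑ u : ZMod p, ∑ v : ZMod p,
      ker B (u - f x1) * ker B (v - (f x2 - x2)) * ker B (u - v - x3) =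
    ∑ t1 : ZMod p, ∑ t2 : ZMod p, ∑ t3 : ZMod p,
      ker B t1 * ker B t2 * ker B t3 * NN A f (t3 - t1 + t2) := by
  -- change of variables in `u`, `v`
  have h1 : ∀ x1 x2 x3 : ZMod p, ∑ u : ZMod p, ∑ v : ZMod p,
      ker B (u - f x1) * ker B (v - (f x2 - x2)) * ker B (u - v - x3) =
      ∑ t1 : ZMod p, ∑ t2 : ZMod p, ∑ t3 : ZMod p, ker B t1 * ker B t2 * ker B t3 *
        (if f x1 = f x2 - x2 + (t3 - t1 + t2) + x3 then (1 : ℝ) else 0) := by
    intro x1 x2 x3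
    rw [← Equiv.sum_comp (Equiv.addRight (f x1))]
    refine Finset.sum_congr rfl fun t1 _ => ?_
    rw [← Equiv.sum_comp (Equiv.addRight (f x2 - x2))]
    refine Finset.sum_congr rfl fun t2 _ => ?_
    simp only [Equiv.coe_addRight, add_sub_cancel_right]
    have h2 : ∀ t3 : ZMod p, ker B t1 * ker B t2 * ker B t3 *
        (if f x1 = f x2 - x2 + (t3 - t1 + t2) + x3 then (1 : ℝ) else 0) =
        if t3 = t1 + f x1 - (t2 + (f x2 - x2)) - x3 then ker B t1 * ker B t2 * ker B t3 else 0 := by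
      intro t3
      by_cases h : t3 = t1 + f x1 - (t2 + (f x2 - x2)) - x3
      · rw [if_pos h, if_pos (by rw [h]; ring), mul_one]
      · rw [if_neg h, if_neg (by intro h2; apply h; rw [h2]; ring), mul_zero]
    rw [Finset.sum_congr rfl fun t3 _ => h2 t3, Finset.sum_ite_eq']
    simp only [Finset.mem_univ, if_true]
  have h3 : ∀ s : ZMod p, NN A f s = ∑ x1 ∈ A, ∑ x2 ∈ A, ∑ x3 ∈ A,
      (if f x1 = f x2 - x2 + s + x3 then (1 : ℝ) else 0) := by
    intro s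
    unfold NN conv rep
    rw [Finset.sum_comm' (s := A) (t := fun _ => A) (t' := A) (s' := fun _ => A) (by tauto)]
    have : ∀ x2 ∈ A, ∑ x3 ∈ A, ∑ x1 ∈ A, (if f x1 = f x2 - x2 + s + x3 then (1 : ℝ) else 0) =
        ∑ x1 ∈ A, ∑ x3 ∈ A, (if f x1 = f x2 - x2 + s + x3 then (1 : ℝ) else 0) :=
      fun x2 _ => Finset.sum_comm
    rw [Finset.sum_comm' (s := A) (t := fun _ => A) (t' := A) (s' := fun _ => A) (by tauto),
      Finset.sum_congr rfl this, Finset.sum_comm]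
  simp_rw [h1, h3, Finset.mul_sum]
  -- move the sums over `t1, t2, t3` outside
  have c1 : ∀ F : ZMod p → ZMod p → ZMod p → ZMod p → ZMod p → ZMod p → ℝ,
      ∑ x1 ∈ A, ∑ x2 ∈ A, ∑ x3 ∈ A, ∑ t1, ∑ t2, ∑ t3, F x1 x2 x3 t1 t2 t3 =
      ∑ t1, ∑ t2, ∑ t3, ∑ x1 ∈ A, ∑ x2 ∈ A, ∑ x3 ∈ A, F x1 x2 x3 t1 t2 t3 := by
    intro F
    have e1 : ∑ x1 ∈ A, ∑ x2 ∈ A, ∑ x3 ∈ A, ∑ t1, ∑ t2, ∑ t3, F x1 x2 x3 t1 t2 t3 =
        ∑ z ∈ A ×ˢ A ×ˢ A, ∑ τ : ZMod p × ZMod p × ZMod p,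
          F z.1 z.2.1 z.2.2 τ.1 τ.2.1 τ.2.2 := by
      simp only [Finset.sum_product, Fintype.sum_prod_type]
    have e2 : ∑ t1, ∑ t2, ∑ t3, ∑ x1 ∈ A, ∑ x2 ∈ A, ∑ x3 ∈ A, F x1 x2 x3 t1 t2 t3 =
        ∑ τ : ZMod p × ZMod p × ZMod p, ∑ z ∈ A ×ˢ A ×ˢ A,
          F z.1 z.2.1 z.2.2 τ.1 τ.2.1 τ.2.2 := by
      simp only [Finset.sum_product, Fintype.sum_prod_type]
    rw [e1, e2, Finset.sum_comm]
  rw [c1]

/-- Upper bound for the smoothed count. -/
theorem smooth_le {A : Finset (ZMod p)} {f : ZMod p → ZMod p} {B : Finset (ZMod p)}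
    (hB : B.Nonempty) {δ : ℝ}
    (hδ : ∀ w t t' : ZMod p, t ∈ B → t' ∈ B → |NN A f (w + t) - NN A f (w + t')| ≤ δ) :
    ∑ x1 ∈ A, ∑ x2 ∈ A, ∑ x3 ∈ A, ∑ u : ZMod p, ∑ v : ZMod p,
      ker B (u - f x1) * ker B (v - (f x2 - x2)) * ker B (u - v - x3) ≤ NN A f 0 + 3 * δ := by
  rw [smooth_eq]
  have h1 : ∀ t1 t2 t3 : ZMod p, ker B t1 * ker B t2 * ker B t3 * NN A f (t3 - t1 + t2) ≤
      ker B t1 * (ker B t2 * (ker B t3 * (NN A f 0 + 3 * δ))) := by
    intro t1 t2 t3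
    by_cases k1 : ker B t1 = 0
    · rw [k1]; simp
    by_cases k2 : ker B t2 = 0
    · rw [k2]; simp
    by_cases k3 : ker B t3 = 0
    · rw [k3]; simp
    obtain ⟨b1, hb1, b1', hb1', e1⟩ := ker_support k1
    obtain ⟨b2, hb2, b2', hb2', e2⟩ := ker_support k2
    obtain ⟨b3, hb3, b3', hb3', e3⟩ := ker_support k3
    have i1 := (abs_le.1 (hδ (-b3') b3 b3' hb3 hb3')).2
    have i2 := (abs_le.1 (hδ (t3 - b1) b1' b1 hb1' hb1)).2
    have i3 := (abs_le.1 (hδ (t3 - t1 - b2') b2 b2' hb2 hb2')).2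
    have q1 : -b3' + b3 = t3 := by rw [← e3]; ring
    have q2 : -b3' + b3' = 0 := by ring
    have q3 : t3 - b1 + b1' = t3 - t1 := by rw [← e1]; ring
    have q4 : t3 - b1 + b1 = t3 := by ring
    have q5 : t3 - t1 - b2' + b2 = t3 - t1 + t2 := by rw [← e2]; ring
    have q6 : t3 - t1 - b2' + b2' = t3 - t1 := by ring
    rw [q1, q2] at i1
    rw [q3, q4] at i2
    rw [q5, q6] at i3
    have h2 : NN A f (t3 - t1 + t2) ≤ NN A f 0 + 3 * δ := by linarith
    have h3 : 0 ≤ ker B t1 * ker B t2 * ker B t3 :=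
      mul_nonneg (mul_nonneg (ker_nonneg _ _) (ker_nonneg _ _)) (ker_nonneg _ _)
    calc ker B t1 * ker B t2 * ker B t3 * NN A f (t3 - t1 + t2)
        ≤ ker B t1 * ker B t2 * ker B t3 * (NN A f 0 + 3 * δ) := mul_le_mul_of_nonneg_left h2 h3
      _ = _ := by ring
  refine (Finset.sum_le_sum fun t1 _ => Finset.sum_le_sum fun t2 _ => Finset.sum_le_sum fun t3 _ =>
    h1 t1 t2 t3).trans (le_of_eq ?_)
  simp_rw [← Finset.mul_sum, ← Finset.sum_mul]
  rw [sum_ker hB]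
  simp only [one_mul, ← Finset.sum_mul, sum_ker hB]

/-- The main inequality. -/
theorem core {P : (ZMod p)[X]} {ω : ℝ} (hω : 0 ≤ ω)
    (hW : ∀ s t : ZMod p, (s ≠ 0 ∨ t ≠ 0) → ‖∑ x : ZMod p, e (s * P.eval x + t * x)‖ ≤ ω * p)
    {A B : Finset (ZMod p)} (hA : A.Nonempty) (hB : B.Nonempty) {δ : ℝ}
    (hδ : ∀ w t t' : ZMod p, t ∈ B → t' ∈ B →
      |NN A (fun x => P.eval x) (w + t) - NN A (fun x => P.eval x) (w + t')| ≤ δ) :
    (A.card : ℝ) ^ 4 / p ^ 3 ≤ (NN A (fun x => P.eval x) 0 + 3 * δ) / p +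
      (A.card : ℝ) ^ 3 * (ω * p / (B.card : ℝ) ^ 3) := by
  have hp0 : (0 : ℝ) < p := by exact_mod_cast (Fact.out : p.Prime).pos
  have h1 := count_lower hA (fun x => P.eval x) (fun x => P.eval x - x) (fun x => x) hB
  have h2 : ∑ x ∈ A, (∑ x' ∈ A, ker B (P.eval x - P.eval x')) *
      (∑ x' ∈ A, ker B (P.eval x - x - (P.eval x' - x'))) * (∑ x' ∈ A, ker B (x - x')) ≤
      ∑ x : ZMod p, (∑ x' ∈ A, ker B (P.eval x - P.eval x')) *
      (∑ x' ∈ A, ker B (P.eval x - x - (P.eval x' - x'))) * (∑ x' ∈ A, ker B (x - x')) := by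
    refine Finset.sum_le_sum_of_subset_of_nonneg (Finset.subset_univ _) fun x _ _ => ?_
    exact mul_nonneg (mul_nonneg (Finset.sum_nonneg fun _ _ => ker_nonneg _ _)
      (Finset.sum_nonneg fun _ _ => ker_nonneg _ _)) (Finset.sum_nonneg fun _ _ => ker_nonneg _ _)
  have h3 : ∑ x : ZMod p, (∑ x' ∈ A, ker B (P.eval x - P.eval x')) *
      (∑ x' ∈ A, ker B (P.eval x - x - (P.eval x' - x'))) * (∑ x' ∈ A, ker B (x - x')) =
      ∑ x1 ∈ A, ∑ x2 ∈ A, ∑ x3 ∈ A, ∑ x : ZMod p, ker B (P.eval x - P.eval x1) *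
        ker B (P.eval x - x - (P.eval x2 - x2)) * ker B (x - x3) := by
    have e1 : ∀ x : ZMod p, (∑ x' ∈ A, ker B (P.eval x - P.eval x')) *
        (∑ x' ∈ A, ker B (P.eval x - x - (P.eval x' - x'))) * (∑ x' ∈ A, ker B (x - x')) =
        ∑ x1 ∈ A, ∑ x2 ∈ A, ∑ x3 ∈ A, ker B (P.eval x - P.eval x1) *
        ker B (P.eval x - x - (P.eval x2 - x2)) * ker B (x - x3) := by
      intro x
      rw [Finset.sum_mul_sum, Finset.sum_mul]
      refine Finset.sum_congr rfl fun x1 _ => ?_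
      rw [Finset.sum_mul_sum]
    rw [Finset.sum_congr rfl fun x _ => e1 x, Finset.sum_comm]
    refine Finset.sum_congr rfl fun x1 _ => ?_
    rw [Finset.sum_comm]
    refine Finset.sum_congr rfl fun x2 _ => ?_
    rw [Finset.sum_comm]
  have h4 : ∑ x1 ∈ A, ∑ x2 ∈ A, ∑ x3 ∈ A, ∑ x : ZMod p, ker B (P.eval x - P.eval x1) *
        ker B (P.eval x - x - (P.eval x2 - x2)) * ker B (x - x3) ≤
      ∑ x1 ∈ A, ∑ x2 ∈ A, ∑ x3 ∈ A, (1 / p * ∑ u : ZMod p, ∑ v : ZMod p,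
        ker B (u - P.eval x1) * ker B (v - (P.eval x2 - x2)) * ker B (u - v - x3) +
        ω * p / (B.card : ℝ) ^ 3) := by
    refine Finset.sum_le_sum fun x1 _ => Finset.sum_le_sum fun x2 _ =>
      Finset.sum_le_sum fun x3 _ => ?_
    have := (abs_le.1 (trilinear hω hW hB (P.eval x1) (P.eval x2 - x2) x3)).2
    linarith
  have h5 : ∑ x1 ∈ A, ∑ x2 ∈ A, ∑ x3 ∈ A, (1 / p * ∑ u : ZMod p, ∑ v : ZMod p,
        ker B (u - P.eval x1) * ker B (v - (P.eval x2 - x2)) * ker B (u - v - x3) +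
        ω * p / (B.card : ℝ) ^ 3) = 1 / p * (∑ x1 ∈ A, ∑ x2 ∈ A, ∑ x3 ∈ A, ∑ u : ZMod p,
        ∑ v : ZMod p, ker B (u - P.eval x1) * ker B (v - (P.eval x2 - x2)) * ker B (u - v - x3)) +
        (A.card : ℝ) ^ 3 * (ω * p / (B.card : ℝ) ^ 3) := by
    simp_rw [Finset.sum_add_distrib, ← Finset.mul_sum, Finset.sum_const, nsmul_eq_mul]
    ring
  have h6 := smooth_le hB hδ
  have h7 : 1 / (p : ℝ) * (∑ x1 ∈ A, ∑ x2 ∈ A, ∑ x3 ∈ A, ∑ u : ZMod p,
        ∑ v : ZMod p, ker B (u - P.eval x1) * ker B (v - (P.eval x2 - x2)) * ker B (u - v - x3)) ≤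
      (NN A (fun x => P.eval x) 0 + 3 * δ) / p := by
    rw [one_div, ← div_eq_inv_mul]
    exact div_le_div_of_nonneg_right h6 hp0.le
  rw [h3] at h2
  rw [h5] at h4
  linarith

/-- `NN A f 0` counts the patterns, including the diagonal. -/
theorem NN_zero (A : Finset (ZMod p)) (f : ZMod p → ZMod p) :
    NN A f 0 = (((A ×ˢ A).filter fun q => q.1 ≠ q.2 ∧ q.2 + f q.1 - f q.2 ∈ A).card : ℝ) +
      A.card := by
  have h1 : NN A f 0 = (((A ×ˢ A).filter fun q => q.2 + f q.1 - f q.2 ∈ A).card : ℝ) := by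
    unfold NN conv rep
    rw [Finset.card_filter]
    push_cast
    rw [Finset.sum_product_right]
    refine Finset.sum_congr rfl fun y _ => ?_
    rw [Finset.sum_comm]
    refine Finset.sum_congr rfl fun x _ => ?_
    have h2 : ∀ z : ZMod p, (if f x = f y - y + 0 + z then (1 : ℝ) else 0) =
        if y + f x - f y = z then (1 : ℝ) else 0 := by
      intro z
      by_cases h : y + f x - f y = z
      · rw [if_pos h, if_pos (by rw [← h]; ring)]
      · rw [if_neg h, if_neg (by intro h2; apply h; rw [h2]; ring)]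
    rw [Finset.sum_congr rfl fun z _ => h2 z, Finset.sum_ite_eq]
  have h3 : ((A ×ˢ A).filter fun q => q.2 + f q.1 - f q.2 ∈ A) =
      ((A ×ˢ A).filter fun q => q.1 ≠ q.2 ∧ q.2 + f q.1 - f q.2 ∈ A) ∪
        A.image (fun x => (x, x)) := by
    ext ⟨x, y⟩
    simp only [Finset.mem_filter, Finset.mem_union, Finset.mem_product, Finset.mem_image,
      Prod.mk.injEq]
    constructor
    · rintro ⟨⟨hx, hy⟩, h⟩
      by_cases hxy : x = y
      · exact Or.inr ⟨x, hx, rfl, hxy⟩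
      · exact Or.inl ⟨⟨hx, hy⟩, hxy, h⟩
    · rintro (⟨hxy, _, h⟩ | ⟨a, ha, rfl, rfl⟩)
      · exact ⟨hxy, h⟩
      · refine ⟨⟨ha, ha⟩, ?_⟩
        have : a + f a - f a = a := by ring
        rw [this]; exact ha
  have h4 : Disjoint ((A ×ˢ A).filter fun q => q.1 ≠ q.2 ∧ q.2 + f q.1 - f q.2 ∈ A)
      (A.image (fun x => (x, x))) := by
    rw [Finset.disjoint_left]
    rintro ⟨x, y⟩ h1 h2
    rw [Finset.mem_filter] at h1
    rw [Finset.mem_image] at h2
    obtain ⟨a, _, h3⟩ := h2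
    simp only [Prod.mk.injEq] at h3
    exact h1.2.1 (h3.1.symm.trans h3.2)
  rw [h1, h3, Finset.card_union_of_disjoint h4, Finset.card_image_of_injective _
    (fun a b h => (Prod.mk.injEq _ _ _ _ ▸ h).1)]
  push_cast
  rfl

end Pool.Agent.H55.Roth
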