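import Pool.Agent.H55.Roth.Count

/-!
# Parameters
-/

set_option autoImplicit false

open Polynomial Filter Topology

namespace Pool.Agent.H55.Roth

section Finite

variable {p : ℕ} [Fact p.Prime]

theorem fiber_le {Q : (ZMod p)[X]} (hQ : 0 < Q.natDegree) (A : Finset (ZMod p)) (u : ZMod p) :
    (A.filter fun x => Q.eval x = u).card ≤ Q.natDegree := by
  have h1 : (A.filter fun x => Q.eval x = u) ⊆ (Q - C u).roots.toFinset := by
    intro x hx
    rw [Finset.mem_filter] at hx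
    have h0 : Q - C u ≠ 0 := by
      intro h
      have : Q = C u := sub_eq_zero.1 h
      rw [this, natDegree_C] at hQ
      exact lt_irrefl _ hQ
    rw [Multiset.mem_toFinset, mem_roots h0, IsRoot.def, eval_sub, eval_C, hx.2, sub_self]
  refine (Finset.card_le_card h1).trans ((Multiset.toFinset_card_le _).trans ?_)
  exact card_roots_sub_C' (natDegree_pos_iff_degree_pos.1 hQ)

/-- Weyl's bound for the linear combinations. -/
theorem weyl_comb {d : ℕ} (hd : 2 ≤ d) (hdp : d < p) {P : (ZMod p)[X]} (hP : P.natDegree = d)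
    (s t : ZMod p) (hst : s ≠ 0 ∨ t ≠ 0) :
    ‖∑ x : ZMod p, e (s * P.eval x + t * x)‖ ≤
      2 * (p : ℝ) ^ (-(1 / 2 : ℝ) ^ (d - 1)) * p := by
  have hp0 : (0 : ℝ) < p := by exact_mod_cast (Fact.out : p.Prime).pos
  by_cases hs : s = 0
  · have ht : t ≠ 0 := by
      rcases hst with h | h
      · exact absurd hs h
      · exact h
    have h1 : ∑ x : ZMod p, e (s * P.eval x + t * x) = 0 := by
      have h2 : ∀ x : ZMod p, e (s * P.eval x + t * x) = e (t * x) := by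
        intro x; rw [hs, zero_mul, zero_add]
      simp_rw [h2]
      rw [sum_e_mul, if_neg ht]
    rw [h1, norm_zero]
    positivity
  · have h1 : (C s * P + C t * X).natDegree = d := by
      have h2 : (C s * P).natDegree = d := by rw [natDegree_C_mul hs, hP]
      rw [natDegree_add_eq_left_of_natDegree_lt, h2]
      rw [h2]
      have h5 : (C t * X : (ZMod p)[X]).natDegree ≤ 1 := by
        have := natDegree_C_mul_X_pow_le t 1
        rwa [pow_one] at this
      omega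
    have h3 := weyl (by omega : 1 ≤ d) hdp h1
    have h4 : ∀ x : ZMod p, (C s * P + C t * X).eval x = s * P.eval x + t * x := by
      intro x; simp
    simp_rw [h4] at h3
    calc ‖∑ x : ZMod p, e (s * P.eval x + t * x)‖ ≤
        2 * p * (p : ℝ) ^ (-(1 / 2 : ℝ) ^ (d - 1)) := h3
      _ = _ := by ring

/-- The bound for one prime and one set. -/
theorem finite_bound {d : ℕ} (hd : 2 ≤ d) (hdp : d < p) {P : (ZMod p)[X]} (hP : P.natDegree = d)
    {A : Finset (ZMod p)} (hA : A.Nonempty) {k : ℕ} (hk : 1 ≤ k) :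
    ((A.card : ℝ) / p) ^ 4 * (p : ℝ) ^ 2 ≤ NN A (fun x => P.eval x) 0 +
      3 * (3 * d * ((A.card : ℝ) / p) ^ 2 * (p : ℝ) ^ 2 / Real.sqrt k) +
      16 * ((A.card : ℝ) / p) ^ 3 * (p : ℝ) ^ 2 * (p : ℝ) ^ (-(1 / 2 : ℝ) ^ (d - 1)) /
        ((A.card : ℝ) / p) ^ (3 * k) := by
  have hp0 : (0 : ℝ) < p := by exact_mod_cast (Fact.out : p.Prime).pos
  have hA0 : (0 : ℝ) < A.card := by exact_mod_cast Finset.card_pos.2 hA
  have hk0 : (0 : ℝ) < k := by exact_mod_cast hk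
  set α : ℝ := (A.card : ℝ) / p with hα
  have hα0 : 0 < α := by rw [hα]; positivity
  have hAα : (A.card : ℝ) = α * p := by rw [hα]; field_simp
  set f : ZMod p → ZMod p := fun x => P.eval x with hf
  have hfib1 : ∀ v, (A.filter fun y => f y = v).card ≤ d := by
    intro v
    have := fiber_le (Q := P) (by omega) A v
    rw [hP] at this
    exact this
  have hfib2 : ∀ v, (A.filter fun y => f y - y = v).card ≤ d := by
    intro v
    have hdeg : (P - X).natDegree = d := by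
      rw [natDegree_sub_eq_left_of_natDegree_lt, hP]
      rw [hP]
      exact lt_of_le_of_lt natDegree_X_le (by omega)
    have := fiber_le (Q := P - X) (by omega) A v
    rw [hdeg] at this
    simpa using this
  obtain ⟨B, hBc, hBper⟩ := exists_periods hA (rep A f) hk
  rw [ZMod.card, ← hα] at hBc
  clear_value α
  clear hα
  have hBpos : (0 : ℝ) < B.card := by
    refine lt_of_lt_of_le ?_ hBc
    exact div_pos (mul_pos (pow_pos hα0 k) hp0) (by norm_num)
  have hB : B.Nonempty := Finset.card_pos.1 (by exact_mod_cast hBpos)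
  set E : ℝ := 8 * ((A.card : ℝ) ^ 2 * (∑ u, rep A f u ^ 2) / k) with hE
  have hE1 : E ≤ 8 * ((A.card : ℝ) ^ 2 * (d * A.card) / k) := by
    rw [hE]
    have := sum_rep_sq hfib1
    refine mul_le_mul_of_nonneg_left (div_le_div_of_nonneg_right ?_ hk0.le) (by norm_num)
    exact mul_le_mul_of_nonneg_left this (by positivity)
  set δ : ℝ := Real.sqrt (A.card * (d * E)) with hδ
  have hδ1 : δ ≤ 3 * d * α ^ 2 * (p : ℝ) ^ 2 / Real.sqrt k := by
    have h1 : δ ≤ Real.sqrt ((3 * d * α ^ 2 * (p : ℝ) ^ 2 / Real.sqrt k) ^ 2) := by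
      rw [hδ]
      refine Real.sqrt_le_sqrt ?_
      rw [div_pow, Real.sq_sqrt hk0.le]
      have h2 : (A.card : ℝ) * (d * E) ≤
          A.card * (d * (8 * ((A.card : ℝ) ^ 2 * (d * A.card) / k))) :=
        mul_le_mul_of_nonneg_left (mul_le_mul_of_nonneg_left hE1 (Nat.cast_nonneg _)) hA0.le
      refine h2.trans ?_
      rw [le_div_iff₀ hk0, hAα]
      have h3 : α * p * (d * (8 * ((α * p) ^ 2 * (d * (α * p)) / k))) * k =
          8 * ((d : ℝ) * α ^ 2 * (p : ℝ) ^ 2) ^ 2 := by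
        field_simp
      rw [h3]
      nlinarith [sq_nonneg ((d : ℝ) * α ^ 2 * (p : ℝ) ^ 2)]
    refine h1.trans (le_of_eq ?_)
    exact Real.sqrt_sq (by positivity)
  set ω : ℝ := 2 * (p : ℝ) ^ (-(1 / 2 : ℝ) ^ (d - 1)) with hω
  have hω0 : 0 ≤ ω := by rw [hω]; positivity
  have hcore := core hω0 (fun s t hst => weyl_comb hd hdp hP s t hst) hA hB
    (fun w t t' ht ht' => NN_diff hfib2 hBper w t t' ht ht')
  rw [← hδ] at hcore
  have hB3 : (α ^ k * p / 2) ^ 3 ≤ (B.card : ℝ) ^ 3 := pow_le_pow_left₀ (by positivity) hBc 3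
  have h5 : (A.card : ℝ) ^ 3 * (ω * p / (B.card : ℝ) ^ 3) ≤
      (A.card : ℝ) ^ 3 * (ω * p / (α ^ k * p / 2) ^ 3) := by
    refine mul_le_mul_of_nonneg_left ?_ (by positivity)
    exact div_le_div_of_nonneg_left (by positivity) (by positivity) hB3
  have h6 : (A.card : ℝ) ^ 3 * (ω * p / (α ^ k * p / 2) ^ 3) * p =
      16 * α ^ 3 * (p : ℝ) ^ 2 * (p : ℝ) ^ (-(1 / 2 : ℝ) ^ (d - 1)) / α ^ (3 * k) := by
    have h7 : α ^ (3 * k) = (α ^ k) ^ 3 := by rw [mul_comm 3 k, pow_mul]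
    rw [h7, hAα, hω]
    field_simp
    ring
  have h8 : (A.card : ℝ) ^ 4 / p ^ 3 * p = α ^ 4 * (p : ℝ) ^ 2 := by
    rw [hAα]; field_simp
  have h9 := mul_le_mul_of_nonneg_right hcore hp0.le
  rw [h8, add_mul, div_mul_cancel₀ _ hp0.ne'] at h9
  have h10 := mul_le_mul_of_nonneg_right h5 hp0.le
  rw [h6] at h10
  linarith

end Finite

/-- Conditions on large `p`. -/
theorem eventually_large (d K : ℕ) (c : ℝ) (hc : 0 < c) : ∀ᶠ p : ℕ in atTop,
    d < p ∧ K < p ∧ 1 ≤ Real.log (Real.log p) ∧ Real.log 64 ≤ c / 2 * Real.log p ∧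
      4 * Real.log p ≤ p ∧ 1 ≤ Real.log p := by
  have hlog : Tendsto (fun p : ℕ => Real.log (p : ℝ)) atTop atTop :=
    Real.tendsto_log_atTop.comp tendsto_natCast_atTop_atTop
  have hloglog : Tendsto (fun p : ℕ => Real.log (Real.log (p : ℝ))) atTop atTop :=
    Real.tendsto_log_atTop.comp hlog
  have h1 : ∀ᶠ p : ℕ in atTop, d < p := eventually_gt_atTop d
  have h2 : ∀ᶠ p : ℕ in atTop, K < p := eventually_gt_atTop K
  have h3 : ∀ᶠ p : ℕ in atTop, 1 ≤ Real.log (Real.log p) := hloglog.eventually_ge_atTop 1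
  have h4 : ∀ᶠ p : ℕ in atTop, Real.log 64 ≤ c / 2 * Real.log p := by
    have : Tendsto (fun p : ℕ => c / 2 * Real.log (p : ℝ)) atTop atTop :=
      hlog.const_mul_atTop (by positivity)
    exact this.eventually_ge_atTop _
  have h5 : ∀ᶠ p : ℕ in atTop, 4 * Real.log p ≤ p := by
    have h := Real.isLittleO_log_id_atTop
    have h6 : ∀ᶠ x : ℝ in atTop, ‖Real.log x‖ ≤ 1 / 4 * ‖id x‖ := h.def (by norm_num)
    have h7 := tendsto_natCast_atTop_atTop.eventually h6
    filter_upwards [h7, eventually_ge_atTop 1] with p hp hp1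
    have hp1' : (1 : ℝ) ≤ p := by exact_mod_cast hp1
    rw [Real.norm_of_nonneg (Real.log_nonneg hp1'), id, Real.norm_of_nonneg (by linarith)] at hp
    linarith
  have h6 : ∀ᶠ p : ℕ in atTop, 1 ≤ Real.log p := hlog.eventually_ge_atTop 1
  filter_upwards [h1, h2, h3, h4, h5, h6] with p a1 a2 a3 a4 a5 a6
  exact ⟨a1, a2, a3, a4, a5, a6⟩

/-- **Main theorem.** -/
theorem main (P : Polynomial ℤ) (hP : 2 ≤ P.natDegree) :
    ∃ C : ℝ, 0 < C ∧ ∃ p₀ : ℕ, ∀ p : ℕ, p.Prime → p₀ ≤ p → ∀ A : Finset (ZMod p),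
      C * p * (Real.log (Real.log p) / Real.log p) ^ (1 / 4 : ℝ) ≤ (A.card : ℝ) →
        (A.card : ℝ) ^ 4 / (4 * (p : ℝ) ^ 2) ≤ (((A ×ˢ A).filter fun q => q.1 ≠ q.2 ∧
          q.2 + Polynomial.eval q.1 (Polynomial.map (Int.castRingHom (ZMod p)) P)
            - Polynomial.eval q.2 (Polynomial.map (Int.castRingHom (ZMod p)) P) ∈ A).card : ℝ) := by
  set d : ℕ := P.natDegree with hd
  set c : ℝ := (1 / 2 : ℝ) ^ (d - 1) with hc
  have hc0 : 0 < c := by rw [hc]; positivity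
  have hc1 : c ≤ 1 := pow_le_one₀ (by norm_num) (by norm_num)
  have hd2 : (2 : ℝ) ≤ d := by exact_mod_cast hP
  -- the constant
  set C : ℝ := 16000 * (d : ℝ) ^ 2 / c with hC
  have hC1 : 1 ≤ C := by
    rw [hC, le_div_iff₀ hc0]
    nlinarith
  have hC0 : 0 < C := by linarith
  refine ⟨C, hC0, ?_⟩
  obtain ⟨p₀, hp₀⟩ := eventually_atTop.1 (eventually_large d P.leadingCoeff.natAbs c hc0)
  refine ⟨p₀, fun p hp hpp A hA => ?_⟩
  obtain ⟨hdp, hlc, hLL, h64, h4p, hL⟩ := hp₀ p hpp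
  have : Fact p.Prime := ⟨hp⟩
  set Q : (ZMod p)[X] := Polynomial.map (Int.castRingHom (ZMod p)) P with hQ
  have hp0 : (0 : ℝ) < p := by exact_mod_cast hp.pos
  -- the degree of the reduction
  have hQd : Q.natDegree = d := by
    rw [hQ, hd]
    refine natDegree_map_of_leadingCoeff_ne_zero _ ?_
    intro h
    have h0 : P.leadingCoeff ≠ 0 := by
      rw [Ne, leadingCoeff_eq_zero]
      rintro rfl
      simp at hd
      omega
    have h1 : ((P.leadingCoeff : ℤ) : ZMod p) = 0 := by simpa using h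
    rw [ZMod.intCast_zmod_eq_zero_iff_dvd] at h1
    have h2 : p ∣ P.leadingCoeff.natAbs := by
      have := Int.natAbs_dvd_natAbs.2 h1
      simpa using this
    have h3 := Nat.le_of_dvd (Int.natAbs_pos.2 h0) h2
    omega
  set L : ℝ := Real.log p with hLdef
  set LL : ℝ := Real.log L with hLLdef
  have hL0 : 0 < L := by linarith
  have hLL0 : 0 < LL := by linarith
  set α : ℝ := (A.card : ℝ) / p with hα
  have hAα : (A.card : ℝ) = α * p := by rw [hα]; field_simp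
  have hαC : C * (LL / L) ^ (1 / 4 : ℝ) ≤ α := by
    rw [hα, le_div_iff₀ hp0]
    calc C * (LL / L) ^ (1 / 4 : ℝ) * p = C * p * (LL / L) ^ (1 / 4 : ℝ) := by ring
      _ ≤ A.card := hA
  have hα0 : 0 < α := lt_of_lt_of_le (by positivity) hαC
  have hα1 : α ≤ 1 := by
    rw [hα, div_le_one hp0]
    have := Finset.card_le_univ A
    rw [ZMod.card] at this
    exact_mod_cast this
  have hAne : A.Nonempty := by
    rw [← Finset.card_pos]
    have : (0 : ℝ) < A.card := by rw [hAα]; exact mul_pos hα0 hp0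
    exact_mod_cast this
  have hfin0 : ∀ k : ℕ, 1 ≤ k → α ^ 4 * (p : ℝ) ^ 2 ≤ NN A (fun x => Q.eval x) 0 +
      3 * (3 * d * α ^ 2 * (p : ℝ) ^ 2 / Real.sqrt k) +
      16 * α ^ 3 * (p : ℝ) ^ 2 * (p : ℝ) ^ (-c) / α ^ (3 * k) := by
    intro k hk
    have hfin := finite_bound hP hdp hQd hAne hk
    rw [← hα, ← hc] at hfin
    exact hfin
  clear_value α
  clear hα
  -- fourth power
  have hα4 : C * (LL / L) ≤ α ^ 4 := by
    have h1 : (C * (LL / L) ^ (1 / 4 : ℝ)) ^ 4 ≤ α ^ 4 :=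
      pow_le_pow_left₀ (by positivity) hαC 4
    have h2 : (C * (LL / L) ^ (1 / 4 : ℝ)) ^ 4 = C ^ 4 * (LL / L) := by
      rw [mul_pow, ← Real.rpow_natCast ((LL / L) ^ (1 / 4 : ℝ)) 4, ← Real.rpow_mul (by positivity)]
      norm_num
    rw [h2] at h1
    have h3 : C ≤ C ^ 4 := le_self_pow₀ hC1 (by norm_num)
    have h4 : 0 ≤ LL / L := by positivity
    nlinarith
  have hαL : 1 / L ≤ α := by
    have h1 : α ^ 4 ≤ α := pow_le_of_le_one hα0.le hα1 (by norm_num)
    have h2 : 1 / L ≤ C * (LL / L) := by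
      rw [← mul_div_assoc]
      exact div_le_div_of_nonneg_right (by nlinarith) hL0.le
    linarith
  have hlogα : -LL ≤ Real.log α := by
    have h1 : Real.log (1 / L) ≤ Real.log α := Real.log_le_log (by positivity) hαL
    rw [one_div, Real.log_inv] at h1
    exact h1
  -- the number of samples
  set k : ℕ := ⌈1296 * (d : ℝ) ^ 2 / α ^ 4⌉₊ with hk
  have hx1 : 1 ≤ 1296 * (d : ℝ) ^ 2 / α ^ 4 := by
    rw [le_div_iff₀ (by positivity)]
    have : α ^ 4 ≤ 1 := pow_le_one₀ hα0.le hα1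
    nlinarith
  have hk1 : 1 ≤ k := by
    rw [hk]
    exact Nat.one_le_ceil_iff.2 (by linarith)
  have hklow : 1296 * (d : ℝ) ^ 2 / α ^ 4 ≤ k := Nat.le_ceil _
  have hkup : (k : ℝ) ≤ 1297 * (d : ℝ) ^ 2 / α ^ 4 := by
    have h1 := (Nat.ceil_lt_add_one (by positivity : 0 ≤ 1296 * (d : ℝ) ^ 2 / α ^ 4)).le
    rw [← hk] at h1
    have h2 : 1 ≤ (d : ℝ) ^ 2 / α ^ 4 := by
      rw [le_div_iff₀ (by positivity)]
      have : α ^ 4 ≤ 1 := pow_le_one₀ hα0.le hα1
      nlinarith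
    have h3 : 1296 * (d : ℝ) ^ 2 / α ^ 4 = 1296 * ((d : ℝ) ^ 2 / α ^ 4) := by ring
    have h4 : 1297 * (d : ℝ) ^ 2 / α ^ 4 = 1297 * ((d : ℝ) ^ 2 / α ^ 4) := by ring
    rw [h3] at h1
    rw [h4]
    linarith
  have hfin := hfin0 k hk1
  -- the second term
  have hsqrt : 36 * (d : ℝ) / α ^ 2 ≤ Real.sqrt k := by
    have h1 : Real.sqrt ((36 * (d : ℝ) / α ^ 2) ^ 2) ≤ Real.sqrt k := by
      refine Real.sqrt_le_sqrt ?_
      refine le_trans (le_of_eq ?_) hklow
      rw [div_pow]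
      ring
    rwa [Real.sqrt_sq (by positivity)] at h1
  have hterm2 : 3 * (3 * d * α ^ 2 * (p : ℝ) ^ 2 / Real.sqrt k) ≤ α ^ 4 * (p : ℝ) ^ 2 / 4 := by
    have hs0 : 0 < Real.sqrt k := lt_of_lt_of_le (by positivity) hsqrt
    have h1 : 36 * (d : ℝ) ≤ Real.sqrt k * α ^ 2 := by
      rwa [div_le_iff₀ (by positivity)] at hsqrt
    have h2 : 3 * (3 * d * α ^ 2 * (p : ℝ) ^ 2 / Real.sqrt k) =
        (9 * d * α ^ 2 * (p : ℝ) ^ 2) / Real.sqrt k := by ring
    rw [h2, div_le_iff₀ hs0]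
    have h3 : 0 ≤ α ^ 2 * (p : ℝ) ^ 2 := by positivity
    nlinarith [mul_le_mul_of_nonneg_left h1 h3]
  -- the third term
  have hthird : 64 * (p : ℝ) ^ (-c) ≤ α ^ (3 * k + 1) := by
    have h1 : (64 : ℝ) * (p : ℝ) ^ (-c) = Real.exp (Real.log 64 - c * L) := by
      rw [Real.exp_sub, Real.exp_log (by norm_num), Real.rpow_neg hp0.le,
        Real.rpow_def_of_pos hp0, ← hLdef, mul_comm L c]
      rfl
    have h2 : α ^ (3 * k + 1) = Real.exp ((3 * k + 1) * Real.log α) := by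
      rw [mul_comm ((3 : ℝ) * k + 1), Real.exp_mul, Real.exp_log hα0]
      norm_cast
    rw [h1, h2]
    refine Real.exp_le_exp.2 ?_
    have h3 : ((3 : ℝ) * k + 1) ≤ 3892 * (d : ℝ) ^ 2 / α ^ 4 := by
      have h2 : 1 ≤ (d : ℝ) ^ 2 / α ^ 4 := by
        rw [le_div_iff₀ (by positivity)]
        have : α ^ 4 ≤ 1 := pow_le_one₀ hα0.le hα1
        nlinarith
      have h4 : 1297 * (d : ℝ) ^ 2 / α ^ 4 = 1297 * ((d : ℝ) ^ 2 / α ^ 4) := by ring
      have h5 : 3892 * (d : ℝ) ^ 2 / α ^ 4 = 3892 * ((d : ℝ) ^ 2 / α ^ 4) := by ring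
      rw [h4] at hkup
      rw [h5]
      linarith
    have h4 : ((3 : ℝ) * k + 1) * LL ≤ c / 2 * L := by
      have h5 : 3892 * (d : ℝ) ^ 2 / α ^ 4 * LL ≤ c / 2 * L := by
        rw [div_mul_eq_mul_div, div_le_iff₀ (by positivity)]
        have h6 : c / 2 * L * (C * (LL / L)) ≤ c / 2 * L * α ^ 4 :=
          mul_le_mul_of_nonneg_left hα4 (by positivity)
        have h7 : c / 2 * L * (C * (LL / L)) = 8000 * (d : ℝ) ^ 2 * LL := by
          rw [hC]; field_simp; ring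
        rw [h7] at h6
        have h8 : 0 ≤ (d : ℝ) ^ 2 * LL := by positivity
        linarith
      exact (mul_le_mul_of_nonneg_right h3 hLL0.le).trans h5
    have h5 : -(((3 : ℝ) * k + 1) * LL) ≤ (3 * k + 1) * Real.log α := by
      have : 0 ≤ (3 : ℝ) * k + 1 := by positivity
      nlinarith
    linarith
  have hterm3 : 16 * α ^ 3 * (p : ℝ) ^ 2 * (p : ℝ) ^ (-c) / α ^ (3 * k) ≤
      α ^ 4 * (p : ℝ) ^ 2 / 4 := by
    rw [div_le_iff₀ (by positivity)]
    have h1 : α ^ 4 * (p : ℝ) ^ 2 / 4 * α ^ (3 * k) =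
        α ^ 3 * (p : ℝ) ^ 2 / 4 * α ^ (3 * k + 1) := by
      rw [pow_succ α (3 * k)]; ring
    have h2 : 16 * α ^ 3 * (p : ℝ) ^ 2 * (p : ℝ) ^ (-c) =
        α ^ 3 * (p : ℝ) ^ 2 / 4 * (64 * (p : ℝ) ^ (-c)) := by ring
    rw [h1, h2]
    exact mul_le_mul_of_nonneg_left hthird (by positivity)
  have hN : α ^ 4 * (p : ℝ) ^ 2 / 2 ≤ NN A (fun x => Q.eval x) 0 := by linarith
  rw [NN_zero] at hN
  -- the diagonal
  have hdiag : (A.card : ℝ) ≤ α ^ 4 * (p : ℝ) ^ 2 / 4 := by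
    rw [hAα]
    have h1 : 4 ≤ α ^ 3 * p := by
      have h2 : 1 / L ≤ α ^ 3 := by
        have h3 : α ^ 4 ≤ α ^ 3 := pow_le_pow_of_le_one hα0.le hα1 (by norm_num)
        have h4 : 1 / L ≤ C * (LL / L) := by
          rw [← mul_div_assoc]
          exact div_le_div_of_nonneg_right (by nlinarith) hL0.le
        linarith
      have h3 : 4 ≤ 1 / L * p := by
        rw [one_div, ← div_eq_inv_mul, le_div_iff₀ hL0]
        exact h4p
      exact h3.trans (mul_le_mul_of_nonneg_right h2 hp0.le)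
    have h2 : 0 ≤ α * p / 4 := by positivity
    nlinarith [mul_le_mul_of_nonneg_left h1 h2]
  have hgoal : (A.card : ℝ) ^ 4 / (4 * (p : ℝ) ^ 2) = α ^ 4 * (p : ℝ) ^ 2 / 4 := by
    rw [hAα]; field_simp
  rw [hgoal]
  linarith

end Pool.Agent.H55.Roth
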