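import Pool.Agent.H55.Roth.Weyl

/-!
# Smoothing kernels and Weyl sums

`ker B` is the law of `b - b'` for independent uniform elements `b, b'` of `B`.
-/

set_option autoImplicit false

open Polynomial

namespace Pool.Agent.H55.Roth

variable {p : ℕ} [Fact p.Prime]

/-- The law of the difference of two independent uniform elements of `B`. -/
noncomputable def ker (B : Finset (ZMod p)) (t : ZMod p) : ℝ :=
  (∑ b ∈ B, ∑ b' ∈ B, if b - b' = t then (1 : ℝ) else 0) / (B.card : ℝ) ^ 2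

/-- The Fourier coefficients of `ker B`. -/
noncomputable def mm (B : Finset (ZMod p)) (a : ZMod p) : ℝ :=
  ‖∑ b ∈ B, e (a * b)‖ ^ 2 / (B.card : ℝ) ^ 2

theorem mm_nonneg (B : Finset (ZMod p)) (a : ZMod p) : 0 ≤ mm B a := by
  unfold mm; positivity

theorem ker_nonneg (B : Finset (ZMod p)) (t : ZMod p) : 0 ≤ ker B t := by
  unfold ker
  refine div_nonneg (Finset.sum_nonneg fun b _ => Finset.sum_nonneg fun b' _ => ?_) (by positivity)
  split_ifs <;> norm_num

theorem p_ne_zero : (p : ℂ) ≠ 0 := by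
  have : p ≠ 0 := (Fact.out : p.Prime).ne_zero
  exact_mod_cast this

theorem ker_fourier (B : Finset (ZMod p)) (t : ZMod p) :
    (ker B t : ℂ) = 1 / p * ∑ a : ZMod p, (mm B a : ℂ) * e (a * t) := by
  have h1 : ∀ a : ZMod p, (mm B a : ℂ) * e (a * t) =
      (∑ b ∈ B, ∑ b' ∈ B, e ((b' - b + t) * a)) / (B.card : ℂ) ^ 2 := by
    intro a
    have h2 : ((‖∑ b ∈ B, e (a * b)‖ ^ 2 : ℝ) : ℂ) = ∑ b ∈ B, ∑ b' ∈ B, e (a * b') * e (-(a * b)) := by
      have h3 : ((‖∑ b ∈ B, e (a * b)‖ ^ 2 : ℝ) : ℂ) =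
          (∑ b ∈ B, e (a * b)) * (starRingEnd ℂ) (∑ b ∈ B, e (a * b)) := by
        rw [Complex.mul_conj, Complex.normSq_eq_norm_sq]
      rw [h3, map_sum, Finset.sum_mul_sum, Finset.sum_comm]
      simp_rw [conj_e]
    unfold mm
    rw [Complex.ofReal_div, h2, div_mul_eq_mul_div, Finset.sum_mul]
    push_cast
    congr 1
    refine Finset.sum_congr rfl fun b _ => ?_
    rw [Finset.sum_mul]
    refine Finset.sum_congr rfl fun b' _ => ?_
    rw [← e_add, ← e_add]
    congr 1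
    ring
  simp_rw [h1]
  rw [← Finset.sum_div, Finset.sum_comm]
  unfold ker
  rw [Complex.ofReal_div, ← mul_div_assoc]
  push_cast
  congr 1
  rw [Finset.mul_sum]
  refine Finset.sum_congr rfl fun b _ => ?_
  rw [Finset.sum_comm, Finset.mul_sum]
  refine Finset.sum_congr rfl fun b' _ => ?_
  rw [sum_e_mul]
  by_cases h : b - b' = t
  · rw [if_pos h, if_pos (by rw [← h]; ring)]
    have hp : (p : ℂ) ≠ 0 := p_ne_zero
    rw [one_div, inv_mul_cancel₀ hp, Complex.ofReal_one]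
  · rw [if_neg h, if_neg]
    · simp
    · intro h2
      apply h
      have : t = b - b' + (b' - b + t) := by ring
      rw [this, h2, add_zero]

theorem ker_zero {B : Finset (ZMod p)} (hB : B.Nonempty) : ker B 0 = 1 / B.card := by
  have hc : (B.card : ℝ) ≠ 0 := by
    have := Finset.card_pos.2 hB
    exact_mod_cast this.ne'
  unfold ker
  have h : ∑ b ∈ B, ∑ b' ∈ B, (if b - b' = 0 then (1 : ℝ) else 0) = B.card := by
    rw [Finset.card_eq_sum_ones]
    push_cast
    refine Finset.sum_congr rfl fun b hb => ?_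
    simp_rw [sub_eq_zero]
    rw [Finset.sum_ite_eq]
    simp [hb]
  rw [h]
  field_simp

theorem sum_ker {B : Finset (ZMod p)} (hB : B.Nonempty) : ∑ t, ker B t = 1 := by
  have hc : (B.card : ℝ) ≠ 0 := by
    have := Finset.card_pos.2 hB
    exact_mod_cast this.ne'
  unfold ker
  rw [← Finset.sum_div, Finset.sum_comm]
  have h : ∀ b ∈ B, ∑ t, ∑ b' ∈ B, (if b - b' = t then (1 : ℝ) else 0) = B.card := by
    intro b _
    rw [Finset.sum_comm, Finset.card_eq_sum_ones]
    push_cast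
    refine Finset.sum_congr rfl fun b' _ => ?_
    rw [Finset.sum_ite_eq]
    simp
  rw [Finset.sum_congr rfl h, Finset.sum_const, nsmul_eq_mul]
  field_simp

theorem sum_mm {B : Finset (ZMod p)} (hB : B.Nonempty) : ∑ a, mm B a = p / B.card := by
  have h := ker_fourier B (0 : ZMod p)
  rw [ker_zero hB] at h
  simp only [mul_zero, e_zero, mul_one] at h
  have hp : (p : ℂ) ≠ 0 := p_ne_zero
  have h2 : ((∑ a, mm B a : ℝ) : ℂ) = ((p / B.card : ℝ) : ℂ) := by
    push_cast at h ⊢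
    have h3 : ∑ a, (mm B a : ℂ) = p * (1 / p * ∑ a, (mm B a : ℂ)) := by
      field_simp
    rw [h3, ← h]
    ring
  exact_mod_cast h2

theorem ker3 (B : Finset (ZMod p)) (X Y Z : ZMod p) :
    ((ker B X * ker B Y * ker B Z : ℝ) : ℂ) = 1 / p ^ 3 *
      ∑ a, ∑ b, ∑ c, ((mm B a * mm B b * mm B c : ℝ) : ℂ) * e (a * X + b * Y + c * Z) := by
  push_cast
  rw [ker_fourier, ker_fourier, ker_fourier]
  have h : (1 / (p : ℂ) * ∑ a, (mm B a : ℂ) * e (a * X)) * (1 / p * ∑ a, (mm B a : ℂ) * e (a * Y)) *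
      (1 / p * ∑ a, (mm B a : ℂ) * e (a * Z)) = 1 / p ^ 3 *
      ((∑ a, (mm B a : ℂ) * e (a * X)) * (∑ b, (mm B b : ℂ) * e (b * Y)) *
      (∑ c, (mm B c : ℂ) * e (c * Z))) := by
    ring
  rw [h, Finset.sum_mul_sum, Finset.sum_mul]
  congr 1
  refine Finset.sum_congr rfl fun a _ => ?_
  rw [Finset.sum_mul_sum]
  refine Finset.sum_congr rfl fun b _ => ?_
  refine Finset.sum_congr rfl fun c _ => ?_
  rw [e_add, e_add]
  ring

/-- The inner difference. -/
theorem inner_bound {P : (ZMod p)[X]} {ω : ℝ} (hω : 0 ≤ ω)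
    (hW : ∀ s t : ZMod p, (s ≠ 0 ∨ t ≠ 0) → ‖∑ x : ZMod p, e (s * P.eval x + t * x)‖ ≤ ω * p)
    (s1 s2 s3 a b c : ZMod p) :
    ‖(∑ x : ZMod p, e (a * (P.eval x - s1) + b * (P.eval x - x - s2) + c * (x - s3))) -
      1 / p * ∑ u : ZMod p, ∑ v : ZMod p, e (a * (u - s1) + b * (v - s2) + c * (u - v - s3))‖ ≤
      ω * p := by
  have h1 : ∑ x : ZMod p, e (a * (P.eval x - s1) + b * (P.eval x - x - s2) + c * (x - s3)) =
      e (-(a * s1 + b * s2 + c * s3)) * ∑ x : ZMod p, e ((a + b) * P.eval x + (c - b) * x) := by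
    rw [Finset.mul_sum]
    refine Finset.sum_congr rfl fun x _ => ?_
    rw [← e_add]
    congr 1
    ring
  have h2 : ∑ u : ZMod p, ∑ v : ZMod p, e (a * (u - s1) + b * (v - s2) + c * (u - v - s3)) =
      e (-(a * s1 + b * s2 + c * s3)) * ((∑ u : ZMod p, e ((a + c) * u)) *
        ∑ v : ZMod p, e ((b - c) * v)) := by
    rw [Finset.sum_mul_sum, Finset.mul_sum]
    refine Finset.sum_congr rfl fun u _ => ?_
    rw [Finset.mul_sum]
    refine Finset.sum_congr rfl fun v _ => ?_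
    rw [← e_add, ← e_add]
    congr 1
    ring
  have h3 : (∑ x : ZMod p, e (a * (P.eval x - s1) + b * (P.eval x - x - s2) + c * (x - s3))) -
      1 / p * ∑ u : ZMod p, ∑ v : ZMod p, e (a * (u - s1) + b * (v - s2) + c * (u - v - s3)) =
      e (-(a * s1 + b * s2 + c * s3)) * ((∑ x : ZMod p, e ((a + b) * P.eval x + (c - b) * x)) -
        1 / p * ((∑ u : ZMod p, e ((a + c) * u)) * ∑ v : ZMod p, e ((b - c) * v))) := by
    rw [h1, h2]; ring
  rw [h3, norm_mul, norm_e, one_mul, sum_e_mul, sum_e_mul]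
  have hp : (p : ℂ) ≠ 0 := p_ne_zero
  by_cases hac : a + c = 0
  · by_cases hbc : b - c = 0
    · have hab : a + b = 0 := by
        have : a + b = (a + c) + (b - c) := by ring
        rw [this, hac, hbc, add_zero]
      have hcb : c - b = 0 := by
        have : c - b = -(b - c) := by ring
        rw [this, hbc, neg_zero]
      rw [if_pos hac, if_pos hbc, hab, hcb]
      simp only [zero_mul, add_zero, e_zero, Finset.sum_const, Finset.card_univ, ZMod.card,
        nsmul_eq_mul, mul_one]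
      have : (p : ℂ) - 1 / p * (p * p) = 0 := by field_simp; ring
      rw [this, norm_zero]
      positivity
    · rw [if_neg hbc, mul_zero, mul_zero, sub_zero]
      refine hW _ _ (Or.inr ?_)
      intro h
      apply hbc
      have : b - c = -(c - b) := by ring
      rw [this, h, neg_zero]
  · rw [if_neg hac, zero_mul, mul_zero, sub_zero]
    refine hW _ _ ?_
    by_contra hcon
    push Not at hcon
    apply hac
    have : a + c = (a + b) + (c - b) := by ring
    rw [this, hcon.1, hcon.2, add_zero]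

/-- Smoothed counts: `P x` and `x` behave as independent variables. -/
theorem trilinear {P : (ZMod p)[X]} {ω : ℝ} (hω : 0 ≤ ω)
    (hW : ∀ s t : ZMod p, (s ≠ 0 ∨ t ≠ 0) → ‖∑ x : ZMod p, e (s * P.eval x + t * x)‖ ≤ ω * p)
    {B : Finset (ZMod p)} (hB : B.Nonempty) (s1 s2 s3 : ZMod p) :
    |(∑ x : ZMod p, ker B (P.eval x - s1) * ker B (P.eval x - x - s2) * ker B (x - s3)) -
      1 / p * ∑ u : ZMod p, ∑ v : ZMod p,
        ker B (u - s1) * ker B (v - s2) * ker B (u - v - s3)| ≤ ω * p / (B.card : ℝ) ^ 3 := by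
  have hp0 : (0 : ℝ) < p := by exact_mod_cast (Fact.out : p.Prime).pos
  have hc : (0 : ℝ) < B.card := by exact_mod_cast Finset.card_pos.2 hB
  set A1 : ℝ := ∑ x : ZMod p, ker B (P.eval x - s1) * ker B (P.eval x - x - s2) * ker B (x - s3)
    with hA1
  set A2 : ℝ := ∑ u : ZMod p, ∑ v : ZMod p,
        ker B (u - s1) * ker B (v - s2) * ker B (u - v - s3) with hA2
  have e1 : (A1 : ℂ) = 1 / p ^ 3 * ∑ a, ∑ b, ∑ c, ((mm B a * mm B b * mm B c : ℝ) : ℂ) *
      ∑ x : ZMod p, e (a * (P.eval x - s1) + b * (P.eval x - x - s2) + c * (x - s3)) := by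
    rw [hA1, Complex.ofReal_sum]
    simp_rw [ker3]
    rw [← Finset.mul_sum, Finset.sum_comm]
    congr 1
    refine Finset.sum_congr rfl fun a _ => ?_
    rw [Finset.sum_comm]
    refine Finset.sum_congr rfl fun b _ => ?_
    rw [Finset.sum_comm]
    refine Finset.sum_congr rfl fun c _ => ?_
    rw [Finset.mul_sum]
  have e2 : (A2 : ℂ) = 1 / p ^ 3 * ∑ a, ∑ b, ∑ c, ((mm B a * mm B b * mm B c : ℝ) : ℂ) *
      ∑ u : ZMod p, ∑ v : ZMod p, e (a * (u - s1) + b * (v - s2) + c * (u - v - s3)) := by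
    rw [hA2, Complex.ofReal_sum]
    simp_rw [Complex.ofReal_sum, ker3]
    have hswap : ∀ u : ZMod p, ∑ v : ZMod p, 1 / (p : ℂ) ^ 3 *
        ∑ a, ∑ b, ∑ c, ((mm B a * mm B b * mm B c : ℝ) : ℂ) *
          e (a * (u - s1) + b * (v - s2) + c * (u - v - s3)) = 1 / (p : ℂ) ^ 3 *
        ∑ a, ∑ b, ∑ c, ((mm B a * mm B b * mm B c : ℝ) : ℂ) *
          ∑ v : ZMod p, e (a * (u - s1) + b * (v - s2) + c * (u - v - s3)) := by
      intro u
      rw [← Finset.mul_sum, Finset.sum_comm]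
      congr 1
      refine Finset.sum_congr rfl fun a _ => ?_
      rw [Finset.sum_comm]
      refine Finset.sum_congr rfl fun b _ => ?_
      rw [Finset.sum_comm]
      refine Finset.sum_congr rfl fun c _ => ?_
      rw [Finset.mul_sum]
    rw [Finset.sum_congr rfl fun u _ => hswap u, ← Finset.mul_sum, Finset.sum_comm]
    congr 1
    refine Finset.sum_congr rfl fun a _ => ?_
    rw [Finset.sum_comm]
    refine Finset.sum_congr rfl fun b _ => ?_
    rw [Finset.sum_comm]
    refine Finset.sum_congr rfl fun c _ => ?_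
    rw [Finset.mul_sum]
  have e3 : ((A1 - 1 / p * A2 : ℝ) : ℂ) = 1 / p ^ 3 * ∑ a, ∑ b, ∑ c,
      ((mm B a * mm B b * mm B c : ℝ) : ℂ) *
      ((∑ x : ZMod p, e (a * (P.eval x - s1) + b * (P.eval x - x - s2) + c * (x - s3))) -
      1 / p * ∑ u : ZMod p, ∑ v : ZMod p, e (a * (u - s1) + b * (v - s2) + c * (u - v - s3))) := by
    push_cast
    rw [e1, e2]
    have hsub : ∀ m X Y : ℂ, m * (X - 1 / p * Y) = m * X - 1 / p * (m * Y) := by
      intro m X Y; ring
    push_cast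
    simp_rw [hsub, Finset.sum_sub_distrib, ← Finset.mul_sum]
    ring
  have h4 : |A1 - 1 / p * A2| = ‖((A1 - 1 / p * A2 : ℝ) : ℂ)‖ := by
    rw [Complex.norm_real, Real.norm_eq_abs]
  rw [h4, e3, norm_mul]
  have h5 : ‖(1 : ℂ) / p ^ 3‖ = 1 / (p : ℝ) ^ 3 := by
    rw [norm_div, norm_pow, Complex.norm_natCast, norm_one]
  rw [h5]
  have h6 : ‖∑ a, ∑ b, ∑ c, ((mm B a * mm B b * mm B c : ℝ) : ℂ) *
      ((∑ x : ZMod p, e (a * (P.eval x - s1) + b * (P.eval x - x - s2) + c * (x - s3))) -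
      1 / p * ∑ u : ZMod p, ∑ v : ZMod p, e (a * (u - s1) + b * (v - s2) + c * (u - v - s3)))‖ ≤
      (p / B.card : ℝ) ^ 3 * (ω * p) := by
    have h7 : (p / B.card : ℝ) ^ 3 * (ω * p) =
        ∑ a, ∑ b, ∑ c, (mm B a * mm B b * mm B c) * (ω * p) := by
      have q1 : ∀ a b : ZMod p, ∑ c, (mm B a * mm B b * mm B c) * (ω * p) =
          mm B a * (mm B b * ((p / B.card : ℝ) * (ω * p))) := by
        intro a b
        rw [← Finset.sum_mul, ← Finset.mul_sum, sum_mm hB]
        ring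
      have q2 : ∀ a : ZMod p, ∑ b, ∑ c, (mm B a * mm B b * mm B c) * (ω * p) =
          mm B a * ((p / B.card : ℝ) * ((p / B.card : ℝ) * (ω * p))) := by
        intro a
        rw [Finset.sum_congr rfl fun b _ => q1 a b, ← Finset.mul_sum, ← Finset.sum_mul, sum_mm hB]
      rw [Finset.sum_congr rfl fun a _ => q2 a, ← Finset.sum_mul, sum_mm hB]
      ring
    rw [h7]
    refine norm_sum_le_of_le _ fun a _ => norm_sum_le_of_le _ fun b _ =>
      norm_sum_le_of_le _ fun c _ => ?_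
    rw [norm_mul, Complex.norm_real, Real.norm_eq_abs,
      abs_of_nonneg (mul_nonneg (mul_nonneg (mm_nonneg _ _) (mm_nonneg _ _)) (mm_nonneg _ _))]
    exact mul_le_mul_of_nonneg_left (inner_bound hω hW s1 s2 s3 a b c)
      (mul_nonneg (mul_nonneg (mm_nonneg _ _) (mm_nonneg _ _)) (mm_nonneg _ _))
  refine (mul_le_mul_of_nonneg_left h6 (by positivity)).trans (le_of_eq ?_)
  field_simp

end Pool.Agent.H55.Roth
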