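import Pool.Agent.H55.Roth.Kernel

/-!
# A lower bound for smoothed counts

For any map `φ` on a finite set `A`, `∑ x ∈ A, 1 / (∑ x' ∈ A, ker B (φ x - φ x')) ≤ p`.
-/

set_option autoImplicit false

open Polynomial

namespace Pool.Agent.H55.Roth

variable {p : ℕ} [Fact p.Prime]

theorem ker_neg (B : Finset (ZMod p)) (t : ZMod p) : ker B (-t) = ker B t := by
  unfold ker
  congr 1
  rw [Finset.sum_comm]
  refine Finset.sum_congr rfl fun b _ => Finset.sum_congr rfl fun b' _ => ?_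
  by_cases h : b - b' = t
  · rw [if_pos h, if_pos (by rw [← h]; ring)]
  · rw [if_neg h, if_neg]
    intro h2
    apply h
    have : t = -(-t) := by ring
    rw [this, ← h2]
    ring

theorem ker_corr (B : Finset (ZMod p)) (hB : B.Nonempty) (s s' : ZMod p) :
    ∑ y : ZMod p, (if s - y ∈ B then (1 : ℝ) else 0) * (if s' - y ∈ B then (1 : ℝ) else 0) =
      (B.card : ℝ) ^ 2 * ker B (s - s') := by
  have hc : (B.card : ℝ) ≠ 0 := by
    have := Finset.card_pos.2 hB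
    exact_mod_cast this.ne'
  have h1 : ∀ s y : ZMod p, (if s - y ∈ B then (1 : ℝ) else 0) =
      ∑ b ∈ B, if s - b = y then (1 : ℝ) else 0 := by
    intro s y
    have h2 : ∀ b ∈ B, (if s - b = y then (1 : ℝ) else 0) = if s - y = b then (1 : ℝ) else 0 := by
      intro b _
      by_cases h : s - b = y
      · rw [if_pos h, if_pos (by rw [← h]; ring)]
      · rw [if_neg h, if_neg (by intro h2; apply h; rw [← h2]; ring)]
    rw [Finset.sum_congr rfl h2, Finset.sum_ite_eq]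
  have h3 : ∀ y : ZMod p, (if s - y ∈ B then (1 : ℝ) else 0) * (if s' - y ∈ B then (1 : ℝ) else 0) =
      ∑ b ∈ B, ∑ b' ∈ B, if s - b = y then (if s' - b' = y then (1 : ℝ) else 0) else 0 := by
    intro y
    rw [h1 s y, h1 s' y, Finset.sum_mul_sum]
    refine Finset.sum_congr rfl fun b _ => Finset.sum_congr rfl fun b' _ => ?_
    split_ifs <;> simp
  rw [Finset.sum_congr rfl fun y _ => h3 y, Finset.sum_comm]
  unfold ker
  rw [mul_div_cancel₀ _ (pow_ne_zero 2 hc)]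
  refine Finset.sum_congr rfl fun b _ => ?_
  rw [Finset.sum_comm]
  refine Finset.sum_congr rfl fun b' _ => ?_
  rw [Finset.sum_ite_eq]
  simp only [Finset.mem_univ, if_true]
  by_cases h : b - b' = s - s'
  · rw [if_pos h, if_pos]
    have : s' = s - (s - s') := by ring
    rw [this, ← h]; ring
  · rw [if_neg h, if_neg]
    intro h2
    apply h
    have : b - b' = s - s' + ((s' - b') - (s - b)) := by ring
    rw [this, h2]; ring

theorem sum_inv_le {ι : Type*} (A : Finset ι) (φ : ι → ZMod p) {B : Finset (ZMod p)}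
    (hB : B.Nonempty) : ∑ x ∈ A, (∑ x' ∈ A, ker B (φ x - φ x'))⁻¹ ≤ p := by
  have hc : (0 : ℝ) < B.card := by exact_mod_cast Finset.card_pos.2 hB
  set a : ι → ℝ := fun x => ∑ x' ∈ A, ker B (φ x - φ x') with ha
  have hapos : ∀ x ∈ A, 0 < a x := by
    intro x hx
    have h1 : ker B (φ x - φ x) ≤ a x :=
      Finset.single_le_sum (f := fun x' => ker B (φ x - φ x')) (fun _ _ => ker_nonneg B _) hx
    rw [sub_self, ker_zero hB] at h1
    have : 0 < 1 / (B.card : ℝ) := by positivity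
    linarith
  set w : ι → ℝ := fun x => (a x)⁻¹ with hw
  have hwpos : ∀ x ∈ A, 0 < w x := fun x hx => inv_pos.2 (hapos x hx)
  set X : ℝ := ∑ x ∈ A, w x with hX
  have hX0 : 0 ≤ X := Finset.sum_nonneg fun x hx => (hwpos x hx).le
  set H : ZMod p → ℝ := fun y => ∑ x ∈ A, w x * (if φ x - y ∈ B then (1 : ℝ) else 0) with hH
  have hsum : ∑ y, H y = X * B.card := by
    rw [hH, Finset.sum_comm, hX, Finset.sum_mul]
    refine Finset.sum_congr rfl fun x _ => ?_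
    rw [← Finset.mul_sum]
    congr 1
    have h1 := Equiv.sum_comp (Equiv.subLeft (φ x)) (fun z => if z ∈ B then (1 : ℝ) else 0)
    simp only [Equiv.subLeft_apply] at h1
    rw [h1]
    simp
  have hsq : ∑ y, H y ^ 2 ≤ (B.card : ℝ) ^ 2 * X := by
    have h1 : ∑ y, H y ^ 2 = ∑ x ∈ A, ∑ x' ∈ A, w x * w x' *
        ((B.card : ℝ) ^ 2 * ker B (φ x - φ x')) := by
      have h2 : ∀ y, H y ^ 2 = ∑ x ∈ A, ∑ x' ∈ A, w x * w x' *
          ((if φ x - y ∈ B then (1 : ℝ) else 0) * (if φ x' - y ∈ B then (1 : ℝ) else 0)) := by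
        intro y
        rw [sq, hH, Finset.sum_mul_sum]
        refine Finset.sum_congr rfl fun x _ => Finset.sum_congr rfl fun x' _ => ?_
        ring
      rw [Finset.sum_congr rfl fun y _ => h2 y, Finset.sum_comm]
      refine Finset.sum_congr rfl fun x _ => ?_
      rw [Finset.sum_comm]
      refine Finset.sum_congr rfl fun x' _ => ?_
      rw [← Finset.mul_sum, ker_corr B hB]
    have h3 : ∑ x ∈ A, ∑ x' ∈ A, w x * w x' * ((B.card : ℝ) ^ 2 * ker B (φ x - φ x')) ≤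
        ∑ x ∈ A, ∑ x' ∈ A, ((w x ^ 2 / 2) * ((B.card : ℝ) ^ 2 * ker B (φ x - φ x')) +
          (w x' ^ 2 / 2) * ((B.card : ℝ) ^ 2 * ker B (φ x - φ x'))) := by
      refine Finset.sum_le_sum fun x _ => Finset.sum_le_sum fun x' _ => ?_
      have h4 : 0 ≤ (B.card : ℝ) ^ 2 * ker B (φ x - φ x') :=
        mul_nonneg (sq_nonneg _) (ker_nonneg B _)
      have h5 : w x * w x' ≤ w x ^ 2 / 2 + w x' ^ 2 / 2 := by nlinarith [sq_nonneg (w x - w x')]
      nlinarith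
    have h6 : ∑ x ∈ A, ∑ x' ∈ A, (w x ^ 2 / 2) * ((B.card : ℝ) ^ 2 * ker B (φ x - φ x')) =
        (B.card : ℝ) ^ 2 * X / 2 := by
      rw [hX, Finset.mul_sum, Finset.sum_div]
      refine Finset.sum_congr rfl fun x hx => ?_
      rw [← Finset.mul_sum, ← Finset.mul_sum]
      have h7 : ∑ x' ∈ A, ker B (φ x - φ x') = a x := rfl
      rw [h7]
      have h8 : w x * a x = 1 := inv_mul_cancel₀ (hapos x hx).ne'
      calc w x ^ 2 / 2 * ((B.card : ℝ) ^ 2 * a x) = (B.card : ℝ) ^ 2 * w x * (w x * a x) / 2 := by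
            ring
        _ = (B.card : ℝ) ^ 2 * w x / 2 := by rw [h8, mul_one]
    have h9 : ∑ x ∈ A, ∑ x' ∈ A, (w x' ^ 2 / 2) * ((B.card : ℝ) ^ 2 * ker B (φ x - φ x')) =
        (B.card : ℝ) ^ 2 * X / 2 := by
      rw [← h6, Finset.sum_comm]
      refine Finset.sum_congr rfl fun x _ => Finset.sum_congr rfl fun x' _ => ?_
      rw [← ker_neg B (φ x - φ x'), neg_sub]
    rw [h1]
    refine h3.trans (le_of_eq ?_)
    simp_rw [Finset.sum_add_distrib]
    rw [h6, h9]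
    ring
  have hcs := sq_sum_le_card_mul_sum_sq (s := (Finset.univ : Finset (ZMod p))) (f := H)
  rw [hsum, Finset.card_univ, ZMod.card] at hcs
  have hp : (0 : ℝ) ≤ p := Nat.cast_nonneg _
  have h10 : (X * B.card) ^ 2 ≤ p * ((B.card : ℝ) ^ 2 * X) :=
    hcs.trans (mul_le_mul_of_nonneg_left hsq hp)
  have h11 : X * X ≤ p * X := by
    have h12 : (B.card : ℝ) ^ 2 * (X * X) ≤ (B.card : ℝ) ^ 2 * (p * X) := by nlinarith
    exact le_of_mul_le_mul_left h12 (by positivity)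
  show X ≤ p
  by_contra hcon
  push Not at hcon
  have hXpos : 0 < X := lt_of_le_of_lt hp hcon
  have := le_of_mul_le_mul_right h11 hXpos
  linarith

theorem amgm4 {X Y Z : ℝ} (hX : 0 < X) (hY : 0 < Y) (hZ : 0 < Z) :
    4 ≤ X * Y * Z + X⁻¹ + Y⁻¹ + Z⁻¹ := by
  set s := Real.sqrt (X * Y) with hs
  have hXY : 0 < X * Y := mul_pos hX hY
  have hs0 : 0 < s := Real.sqrt_pos.2 hXY
  have hs2 : s ^ 2 = X * Y := Real.sq_sqrt hXY.le
  have h1 : 2 * s⁻¹ ≤ X⁻¹ + Y⁻¹ := by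
    have h2 : X⁻¹ * Y⁻¹ = (s⁻¹) ^ 2 := by
      rw [inv_pow, hs2, mul_inv]
    have h3 : 0 ≤ X⁻¹ := (inv_pos.2 hX).le
    have h4 : 0 ≤ Y⁻¹ := (inv_pos.2 hY).le
    have h5 : (2 * s⁻¹) ^ 2 ≤ (X⁻¹ + Y⁻¹) ^ 2 := by nlinarith [sq_nonneg (X⁻¹ - Y⁻¹)]
    exact le_of_sq_le_sq h5 (by positivity)
  have h2 : 2 * s ≤ X * Y * Z + Z⁻¹ := by
    rw [← hs2]
    have h3 : Z * Z⁻¹ = 1 := mul_inv_cancel₀ hZ.ne'
    have h4 : 0 < Z⁻¹ := inv_pos.2 hZ
    have h5 : (2 * s) ^ 2 ≤ (s ^ 2 * Z + Z⁻¹) ^ 2 := by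
      have : (s ^ 2 * Z + Z⁻¹) ^ 2 - (2 * s) ^ 2 = (s ^ 2 * Z - Z⁻¹) ^ 2 := by
        have : (s ^ 2 * Z + Z⁻¹) ^ 2 = (s ^ 2 * Z - Z⁻¹) ^ 2 + 4 * s ^ 2 * (Z * Z⁻¹) := by ring
        rw [this, h3]; ring
      nlinarith [sq_nonneg (s ^ 2 * Z - Z⁻¹)]
    exact le_of_sq_le_sq h5 (by positivity)
  have h3 : 2 ≤ s + s⁻¹ := by
    have h4 : s * s⁻¹ = 1 := mul_inv_cancel₀ hs0.ne'
    have h5 : 0 < s⁻¹ := inv_pos.2 hs0
    nlinarith [sq_nonneg (s - s⁻¹), sq_nonneg (s - 1)]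
  linarith

/-- The lower bound for the smoothed count. -/
theorem count_lower {ι : Type*} {A : Finset ι} (hA : A.Nonempty) (φ ψ χ : ι → ZMod p)
    {B : Finset (ZMod p)} (hB : B.Nonempty) :
    (A.card : ℝ) ^ 4 / p ^ 3 ≤ ∑ x ∈ A, (∑ x' ∈ A, ker B (φ x - φ x')) *
      (∑ x' ∈ A, ker B (ψ x - ψ x')) * (∑ x' ∈ A, ker B (χ x - χ x')) := by
  have hc : (0 : ℝ) < B.card := by exact_mod_cast Finset.card_pos.2 hB
  have hA0 : (0 : ℝ) < A.card := by exact_mod_cast Finset.card_pos.2 hA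
  have hp0 : (0 : ℝ) < p := by exact_mod_cast (Fact.out : p.Prime).pos
  have hpos : ∀ φ : ι → ZMod p, ∀ x ∈ A, 0 < ∑ x' ∈ A, ker B (φ x - φ x') := by
    intro φ x hx
    have h1 : ker B (φ x - φ x) ≤ ∑ x' ∈ A, ker B (φ x - φ x') :=
      Finset.single_le_sum (f := fun x' => ker B (φ x - φ x')) (fun _ _ => ker_nonneg B _) hx
    rw [sub_self, ker_zero hB] at h1
    have : 0 < 1 / (B.card : ℝ) := by positivity
    linarith
  set κ : ℝ := p / A.card with hκ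
  have hκ0 : 0 < κ := by rw [hκ]; positivity
  set S : ℝ := ∑ x ∈ A, (∑ x' ∈ A, ker B (φ x - φ x')) *
      (∑ x' ∈ A, ker B (ψ x - ψ x')) * (∑ x' ∈ A, ker B (χ x - χ x')) with hS
  have h1 : ∑ _x ∈ A, (4 : ℝ) ≤ ∑ x ∈ A, (κ ^ 3 * ((∑ x' ∈ A, ker B (φ x - φ x')) *
      (∑ x' ∈ A, ker B (ψ x - ψ x')) * (∑ x' ∈ A, ker B (χ x - χ x'))) +
      κ⁻¹ * (∑ x' ∈ A, ker B (φ x - φ x'))⁻¹ + κ⁻¹ * (∑ x' ∈ A, ker B (ψ x - ψ x'))⁻¹ +
      κ⁻¹ * (∑ x' ∈ A, ker B (χ x - χ x'))⁻¹) := by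
    refine Finset.sum_le_sum fun x hx => ?_
    have h2 := amgm4 (mul_pos hκ0 (hpos φ x hx)) (mul_pos hκ0 (hpos ψ x hx))
      (mul_pos hκ0 (hpos χ x hx))
    rw [mul_inv, mul_inv, mul_inv] at h2
    refine h2.trans (le_of_eq ?_)
    ring
  rw [Finset.sum_const, nsmul_eq_mul, Finset.sum_add_distrib, Finset.sum_add_distrib,
    Finset.sum_add_distrib, ← Finset.mul_sum, ← Finset.mul_sum, ← Finset.mul_sum,
    ← Finset.mul_sum, ← hS] at h1
  have i1 := sum_inv_le A φ hB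
  have i2 := sum_inv_le A ψ hB
  have i3 := sum_inv_le A χ hB
  have hκi : 0 ≤ κ⁻¹ := (inv_pos.2 hκ0).le
  have j1 := mul_le_mul_of_nonneg_left i1 hκi
  have j2 := mul_le_mul_of_nonneg_left i2 hκi
  have j3 := mul_le_mul_of_nonneg_left i3 hκi
  have hκp : κ⁻¹ * p = A.card := by
    rw [hκ, inv_div]; field_simp
  rw [hκp] at j1 j2 j3
  have h2 : (A.card : ℝ) ≤ κ ^ 3 * S := by linarith
  have h3 : (A.card : ℝ) ^ 4 / p ^ 3 = A.card / κ ^ 3 := by
    rw [hκ]; field_simp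
  rw [h3, div_le_iff₀ (by positivity)]
  linarith

end Pool.Agent.H55.Roth
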