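import Mathlib

/-!
# Weyl sums over prime fields

If `Q` is a polynomial over `ZMod p` of degree `n` with `1 ≤ n < p` then
`|∑ x, e(Q(x))| ≤ 2 p^(1 - 1/2^(n-1))`.
-/

set_option autoImplicit false

open Polynomial

namespace Pool.Agent.H55.Roth

variable {p : ℕ} [Fact p.Prime]

/-- The standard additive character of `ZMod p`. -/
noncomputable def e (x : ZMod p) : ℂ := ZMod.stdAddChar x

theorem e_add (x y : ZMod p) : e (x + y) = e x * e y := AddChar.map_add_eq_mul _ x y

@[simp] theorem e_zero : e (0 : ZMod p) = 1 := AddChar.map_zero_eq_one _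

@[simp] theorem norm_e (x : ZMod p) : ‖e x‖ = 1 := AddChar.norm_apply _ x

theorem conj_e (x : ZMod p) : (starRingEnd ℂ) (e x) = e (-x) := by
  have h1 : e x * e (-x) = 1 := by rw [← e_add, add_neg_cancel, e_zero]
  have h2 : e x * (starRingEnd ℂ) (e x) = 1 := by
    rw [Complex.mul_conj, Complex.normSq_eq_norm_sq, norm_e]; simp
  have h3 : e x ≠ 0 := by
    intro h; rw [h, zero_mul] at h1; exact zero_ne_one h1
  exact mul_left_cancel₀ h3 (h2.trans h1.symm)

theorem sum_e_mul (a : ZMod p) : ∑ x : ZMod p, e (a * x) = if a = 0 then (p : ℂ) else 0 := by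
  have h := AddChar.sum_mulShift (ψ := (ZMod.stdAddChar : AddChar (ZMod p) ℂ)) a
    (ZMod.isPrimitive_stdAddChar p)
  have h2 : ∑ x : ZMod p, e (a * x) = ∑ x : ZMod p, (ZMod.stdAddChar (x * a) : ℂ) :=
    Finset.sum_congr rfl fun x _ => by rw [e, mul_comm]
  rw [h2, h, ZMod.card]
  split_ifs <;> simp

/-- Difference polynomial. -/
theorem natDegree_diff {Q : (ZMod p)[X]} {n : ℕ} (hQ : Q.natDegree = n + 1) (hn : n + 1 < p)
    {h : ZMod p} (hh : h ≠ 0) : (taylor h Q - Q).natDegree = n := by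
  have hQ0 : Q ≠ 0 := by
    intro h0; rw [h0] at hQ; simp at hQ
  have hlt : (taylor h Q - Q).natDegree < n + 1 := by
    by_cases h0 : taylor h Q - Q = 0
    · rw [h0]; simp
    have h1 : (taylor h Q - Q).degree < Q.degree := by
      have h2 : (taylor h Q).degree = Q.degree := by
        rw [degree_eq_natDegree hQ0, degree_eq_natDegree (by
          rw [Ne, ← taylor_injective h |>.eq_iff] at hQ0
          simpa using hQ0), natDegree_taylor]
      rw [← h2]
      refine degree_sub_lt_left h2 (by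
          rw [Ne, ← taylor_injective h |>.eq_iff] at hQ0
          simpa using hQ0) ?_
      rw [leadingCoeff, natDegree_taylor, taylor_coeff, leadingCoeff]
      have h3 := hasseDeriv_natDegree_eq_C Q
      rw [h3, eval_C, leadingCoeff]
    rw [degree_eq_natDegree h0, degree_eq_natDegree hQ0, hQ] at h1
    exact_mod_cast h1
  have hco : (taylor h Q - Q).coeff n ≠ 0 := by
    rw [coeff_sub, taylor_coeff]
    have h1 : (hasseDeriv n Q).eval h = Q.coeff n + (n + 1) * Q.coeff (n + 1) * h := by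
      have h2 : (hasseDeriv n Q).natDegree < 2 := by
        have := natDegree_hasseDeriv_le Q n
        omega
      rw [eval_eq_sum_range' h2, Finset.sum_range_succ, Finset.sum_range_one]
      simp only [hasseDeriv_coeff, zero_add, pow_zero, mul_one, pow_one, Nat.choose_self,
        Nat.cast_one, one_mul]
      have h3 : (1 + n).choose n = n + 1 := by
        rw [add_comm, Nat.choose_succ_self_right]
      rw [h3, add_comm 1 n]
      push_cast
      ring
    rw [h1, add_sub_cancel_left]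
    refine mul_ne_zero (mul_ne_zero ?_ ?_) hh
    · have h2 : ((n + 1 : ℕ) : ZMod p) ≠ 0 := by
        rw [Ne, ZMod.natCast_eq_zero_iff]
        intro h3
        exact absurd (Nat.le_of_dvd (by omega) h3) (by omega)
      exact_mod_cast h2
    · rw [← hQ]
      exact leadingCoeff_ne_zero.2 hQ0
  have hge : n ≤ (taylor h Q - Q).natDegree := le_natDegree_of_ne_zero hco
  omega

theorem weyl_aux (n : ℕ) : ∀ (_ : n + 1 < p) (Q : (ZMod p)[X]) (_ : Q.natDegree = n + 1),
    ‖∑ x : ZMod p, e (Q.eval x)‖ ≤ 2 * p * (p : ℝ) ^ (-(1 / 2 : ℝ) ^ n) := by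
  have hp : 1 < p := (Fact.out : p.Prime).one_lt
  have hp1 : (1 : ℝ) < p := by exact_mod_cast hp
  have hp0 : (0 : ℝ) < p := by linarith
  induction n with
  | zero =>
    intro _ Q hQ
    obtain ⟨a, b, ha, rfl⟩ : ∃ a b : ZMod p, a ≠ 0 ∧ Q = C a * X + C b := by
      refine ⟨Q.coeff 1, Q.coeff 0, ?_, ?_⟩
      · have : Q ≠ 0 := by intro h0; rw [h0] at hQ; simp at hQ
        have h2 := leadingCoeff_ne_zero.2 this
        rwa [leadingCoeff, hQ] at h2
      · exact eq_X_add_C_of_natDegree_le_one (by omega)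
    have h1 : ∑ x : ZMod p, e (eval x (C a * X + C b)) = 0 := by
      have h2 : ∀ x : ZMod p, e (eval x (C a * X + C b)) = e (a * x) * e b := by
        intro x
        simp only [eval_add, eval_mul, eval_C, eval_X]
        exact e_add _ _
      simp_rw [h2]
      rw [← Finset.sum_mul, sum_e_mul, if_neg ha, zero_mul]
    rw [h1, norm_zero]
    positivity
  | succ n ih =>
    intro hn Q hQ
    set S : ℂ := ∑ x : ZMod p, e (Q.eval x) with hS
    have h1 : ((‖S‖ ^ 2 : ℝ) : ℂ) = ∑ h : ZMod p, ∑ x : ZMod p, e ((taylor h Q - Q).eval x) := by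
      have h2 : ((‖S‖ ^ 2 : ℝ) : ℂ) = S * (starRingEnd ℂ) S := by
        rw [Complex.mul_conj, Complex.normSq_eq_norm_sq]
      rw [h2, hS, map_sum, Finset.sum_mul_sum, Finset.sum_comm]
      rw [Finset.sum_comm (f := fun h x => e ((taylor h Q - Q).eval x))]
      refine Finset.sum_congr rfl fun x _ => ?_
      rw [← Equiv.sum_comp (Equiv.addLeft x)
        (fun y => e (Q.eval y) * (starRingEnd ℂ) (e (Q.eval x)))]
      refine Finset.sum_congr rfl fun h _ => ?_
      simp only [Equiv.coe_addLeft]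
      rw [conj_e, ← e_add, eval_sub, taylor_eval, sub_eq_add_neg]
    have h2 : ‖S‖ ^ 2 ≤ p + p * (2 * p * (p : ℝ) ^ (-(1 / 2 : ℝ) ^ n)) := by
      have h3 : ‖S‖ ^ 2 = ‖((‖S‖ ^ 2 : ℝ) : ℂ)‖ := by
        rw [Complex.norm_real, Real.norm_of_nonneg (by positivity)]
      rw [h3, h1, ← Finset.add_sum_erase _ _ (Finset.mem_univ (0 : ZMod p))]
      refine (norm_add_le _ _).trans (add_le_add ?_ ?_)
      · refine (norm_sum_le _ _).trans ?_
        simp only [norm_e, Finset.sum_const, Finset.card_univ, ZMod.card, nsmul_eq_mul, mul_one]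
        exact le_rfl
      · refine (norm_sum_le _ _).trans ?_
        have h4 : ∀ h ∈ Finset.univ.erase (0 : ZMod p),
            ‖∑ x : ZMod p, e ((taylor h Q - Q).eval x)‖ ≤
              2 * p * (p : ℝ) ^ (-(1 / 2 : ℝ) ^ n) := by
          intro h hh
          exact ih (by omega) _ (natDegree_diff hQ hn (Finset.ne_of_mem_erase hh))
        refine (Finset.sum_le_sum h4).trans ?_
        rw [Finset.sum_const, nsmul_eq_mul]
        refine mul_le_mul_of_nonneg_right ?_ (by positivity)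
        have h5 : (Finset.univ.erase (0 : ZMod p)).card ≤ p := by
          refine (Finset.card_le_univ _).trans ?_
          rw [ZMod.card]
        exact_mod_cast h5
    have h3 : (p : ℝ) ≤ 2 * (p : ℝ) * p * (p : ℝ) ^ (-(1 / 2 : ℝ) ^ n) := by
      have h4 : (p : ℝ) ^ (-1 : ℝ) ≤ (p : ℝ) ^ (-(1 / 2 : ℝ) ^ n) := by
        refine Real.rpow_le_rpow_of_exponent_le hp1.le ?_
        have : (1 / 2 : ℝ) ^ n ≤ 1 := pow_le_one₀ (by norm_num) (by norm_num)
        linarith
      have h5 : (p : ℝ) * (p : ℝ) ^ (-1 : ℝ) = 1 := by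
        rw [Real.rpow_neg_one]; field_simp
      nlinarith [mul_le_mul_of_nonneg_left h4 (by positivity : (0 : ℝ) ≤ p * p)]
    have h4 : ‖S‖ ^ 2 ≤ (2 * p * (p : ℝ) ^ (-(1 / 2 : ℝ) ^ (n + 1))) ^ 2 := by
      have h5 : ((p : ℝ) ^ (-(1 / 2 : ℝ) ^ (n + 1))) ^ 2 = (p : ℝ) ^ (-(1 / 2 : ℝ) ^ n) := by
        rw [← Real.rpow_natCast, ← Real.rpow_mul hp0.le]
        congr 1
        rw [pow_succ]; push_cast; ring
      rw [mul_pow, h5]
      nlinarith
    exact le_of_sq_le_sq h4 (by positivity)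

/-- Weyl's bound. -/
theorem weyl {n : ℕ} (hn : 1 ≤ n) (hnp : n < p) {Q : (ZMod p)[X]} (hQ : Q.natDegree = n) :
    ‖∑ x : ZMod p, e (Q.eval x)‖ ≤ 2 * p * (p : ℝ) ^ (-(1 / 2 : ℝ) ^ (n - 1)) := by
  obtain ⟨m, rfl⟩ : ∃ m, n = m + 1 := ⟨n - 1, by omega⟩
  simpa using weyl_aux m hnp Q hQ

end Pool.Agent.H55.Roth
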